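import Pool.Agent.Y695.FiveMu
import Pool.Agent.Y695.Per2
import Pool.Agent.Y695.Pfx
import Pool.Agent.Y695.MinD
import Pool.Agent.Y695.JChar
import Pool.Agent.Y695.Twist
import Pool.Agent.W97.V20.Fin

/-!
# The modular symbols of the twists of `X_0(20)` by the primes `13, 17` modulo `20`
-/

set_option autoImplicit false
set_option linter.all false

open UpperHalfPlane MeasureTheory Finset
open scoped ModularForm

namespace Pool.Agent.Z695.MT

open Pool.Agent.W97.V20 (fE an gg f20 J A J0 lam Omega hasSum_A qq_pow_eq f20_of int_f20 prim_f20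
  hmult A_one A_zero A_two hecke_f20 dvd_20)
open Pool.Agent.W97.MT (prim qq ap)
open Pool.Agent.Y695 (ED Adm NN ch cf CC DD Om)

/-- the primes `13, 17` modulo `20` -/
structure Bp (b : ℕ) : Prop where
  prime : b.Prime
  mod : b % 20 = 13 ∨ b % 20 = 17

variable {b : ℕ}

lemma Bp.mod4 (h : Bp b) : b % 4 = 1 := by have := h.mod; omega

lemma Bp.ne2 (h : Bp b) : b ≠ 2 := by have := h.mod; omega

lemma Bp.ne5 (h : Bp b) : b ≠ 5 := by have := h.mod; omega

lemma Bp.jac5 (h : Bp b) : jacobiSym b 5 = -1 := by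
  rw [jacobiSym.mod_left]
  have h1 : ((b : ℤ) % ((5 : ℕ) : ℤ)) = 3 ∨ ((b : ℤ) % ((5 : ℕ) : ℤ)) = 2 := by
    have := h.mod; omega
  rcases h1 with h1 | h1 <;> rw [h1] <;> decide +kernel

lemma Bp.adm (h : Bp b) : Adm {b} := by
  intro q hq
  rw [mem_singleton] at hq
  subst hq
  exact ⟨h.prime, h.ne2, h.ne5⟩

lemma NN_b : NN {b} = b := by unfold NN; rw [prod_singleton]

lemma ch_b (a : ℤ) : ch {b} a = jacobiSym a b := by unfold ch; rw [prod_singleton]

lemma Bp.neg (h : Bp b) : jacobiSym (-1) b = 1 := by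
  rw [jacobiSym.at_neg_one (by
    have := h.mod4
    rw [Nat.odd_iff]; omega)]
  have := h.mod4
  rw [ZMod.χ₄_nat_one_mod_four this]

lemma Bp.DD (h : Bp b) : DD {b} = b := by
  unfold Pool.Agent.Y695.DD
  rw [ch_b, h.neg, NN_b, one_mul]

/-- the Gauss sum -/
theorem gauss (h : Bp b) : ∃ τ : ℝ, τ ^ 2 = b ∧ ∀ n : ℕ,
    ∑ u ∈ range b, (jacobiSym u b : ℂ) * Complex.exp (2 * Real.pi * Complex.I * (u * n) / b) =
      τ * jacobiSym n b := by
  have hN : NN {b} = b := NN_b
  haveI : NeZero (NN {b}) := ⟨by rw [hN]; exact h.prime.ne_zero⟩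
  have h1 := Pool.Agent.Y695.gs_sq h.adm
  rw [ch_b, h.neg, hN] at h1
  have h2 : ∃ τ : ℝ, τ ^ 2 = b ∧ Pool.Agent.Y695.gs {b} = τ := by
    have h3 : ((Real.sqrt b : ℝ) : ℂ) ^ 2 = b := by
      rw [← Complex.ofReal_pow, Real.sq_sqrt (Nat.cast_nonneg b)]
      simp
    have h4 : Pool.Agent.Y695.gs {b} ^ 2 = ((Real.sqrt b : ℝ) : ℂ) ^ 2 := by
      rw [h1, h3]; push_cast; ring
    rcases sq_eq_sq_iff_eq_or_eq_neg.1 h4 with h5 | h5
    · exact ⟨Real.sqrt b, Real.sq_sqrt (Nat.cast_nonneg b), h5⟩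
    · refine ⟨-Real.sqrt b, ?_, ?_⟩
      · rw [neg_sq, Real.sq_sqrt (Nat.cast_nonneg b)]
      · rw [h5]; push_cast; ring
  obtain ⟨τ, hτ, hg⟩ := h2
  refine ⟨τ, hτ, fun n => ?_⟩
  have h6 := Pool.Agent.Y695.gs_twist h.adm n
  rw [hg] at h6
  have h7 : (cf {b} n : ℂ) = (jacobiSym n b : ℂ) := by unfold cf; rw [ch_b]
  rw [h7] at h6
  rw [← h6, hN]
  unfold CC
  rw [sum_filter]
  refine sum_congr rfl fun u _ => ?_
  split_ifs with hc
  · congr 1
    unfold cf
    rw [ch_b]
  · haveI : NeZero b := ⟨h.prime.ne_zero⟩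
    have h8 : jacobiSym u b = 0 := by
      rw [jacobiSym.eq_zero_iff_not_coprime]
      intro h9
      exact hc (by
        rw [Int.gcd_natCast_natCast] at h9
        exact h9)
    rw [h8]
    simp

/-- the coefficients of the twist -/
theorem an_eq (h : Bp b) (n : ℕ) : an (ED b) n = jacobiSym n b * A n := by
  by_cases hn : n = 0
  · subst hn
    rw [A_zero, mul_zero]
    unfold an
    rw [if_pos rfl]
  have htw : ∀ p : ℕ, p.Prime → ap (ED b) p = jacobiSym p b * A p := by
    intro p hp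
    have h1 := Pool.Agent.Y695.ap_twist h.adm hp
    rw [h.DD, ch_b] at h1
    exact h1
  have hdisc : ∀ p : ℕ, p.Prime → ((p : ℤ) ∣ (ED b).Δ ↔ p ∣ 20 ∨ p = b) := by
    intro p hp
    rw [Pool.Agent.Y695.disc_ED]
    have e1 : (2000 * (b : ℤ) ^ 6) = ((2000 * b ^ 6 : ℕ) : ℤ) := by push_cast; ring
    rw [e1, Int.natCast_dvd_natCast, hp.dvd_mul]
    have e2 : p ∣ 2000 ↔ p ∣ 20 := by
      constructor
      · intro h2
        have h3 : p ∣ 20 ^ 3 := h2.trans (by norm_num)
        exact hp.dvd_of_dvd_pow h3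
      · intro h2
        exact h2.trans (by norm_num)
    have e3 : p ∣ b ^ 6 ↔ p = b := by
      constructor
      · intro h2
        exact (Nat.prime_dvd_prime_iff_eq hp h.prime).1 (hp.dvd_of_dvd_pow h2)
      · rintro rfl
        exact dvd_pow_self _ (by norm_num)
    rw [e2, e3]
  refine hmult (ED b) (fun n => jacobiSym n b * A n) ?_ ?_ ?_ n (Nat.pos_of_ne_zero hn)
  · rw [A_one, Nat.cast_one, jacobiSym.one_left, mul_one]
  · intro p hp
    rw [htw p hp]
  · intro p hp n hn
    have h1 := (hecke_f20 hp).2 n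
    have h2 := hdisc p hp
    have h3 : A (p * n) = A p * A n - (if p ∣ 20 then 0 else (p : ℤ)) *
      (if p ∣ n then A (n / p) else 0) := by linarith
    have jm : ∀ x y : ℤ, jacobiSym (x * y) b = jacobiSym x b * jacobiSym y b :=
      fun x y => jacobiSym.mul_left x y b
    rw [Nat.cast_mul, jm, h3]
    haveI : NeZero b := ⟨h.prime.ne_zero⟩
    by_cases hpb : p = b
    · have h4 : jacobiSym (p : ℤ) b = 0 := by
        rw [hpb, jacobiSym.eq_zero_iff_not_coprime, Int.gcd_natCast_natCast, Nat.gcd_self]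
        exact h.prime.one_lt.ne'
      rw [h4, if_pos (h2.2 (Or.inr hpb))]
      simp
    · have hsq : jacobiSym (p : ℤ) b * jacobiSym (p : ℤ) b = 1 := by
        have h5 : Int.gcd (p : ℤ) (b : ℤ) = 1 := by
          rw [Int.gcd_natCast_natCast]
          exact (Nat.coprime_primes hp h.prime).2 hpb
        have := jacobiSym.sq_one' (a := (p : ℤ)) (b := b) h5
        rw [← jm, ← sq]
        exact this
      by_cases hd : (p : ℤ) ∣ (ED b).Δ
      · rw [if_pos hd]
        have h20 : p ∣ 20 := (h2.1 hd).resolve_right hpb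
        rw [if_pos h20]
        push_cast
        ring
      · rw [if_neg hd]
        have h20 : ¬ p ∣ 20 := fun h => hd (h2.2 (Or.inl h))
        rw [if_neg h20]
        by_cases hpn : p ∣ n
        · obtain ⟨m, rfl⟩ := hpn
          rw [if_pos (dvd_mul_right p m), if_pos (dvd_mul_right p m),
            Nat.mul_div_cancel_left _ hp.pos, Nat.cast_mul, jm]
          linear_combination (-(jacobiSym m b * p * A m)) * hsq
        · rw [if_neg hpn, if_neg hpn]
          ring

theorem fE_eq (h : Bp b) {τ : ℝ} (hτ : τ ^ 2 = b) (hg : ∀ n : ℕ,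
    ∑ u ∈ range b, (jacobiSym u b : ℂ) * Complex.exp (2 * Real.pi * Complex.I * (u * n) / b) =
      τ * jacobiSym n b) {z : ℂ} (hz : 0 < z.im) : fE (ED b) (ofComplex z) =
    (∑ u ∈ range b, (jacobiSym u b : ℂ) * gg (2 * (z + u / b))) / τ := by
  have hτ0 : (τ : ℂ) ≠ 0 := by
    intro h0
    have h1 : τ = 0 := by exact_mod_cast h0
    rw [h1] at hτ
    have : (b : ℝ) = 0 := by rw [← hτ]; norm_num
    exact h.prime.ne_zero (by exact_mod_cast this)
  have h1 : ∀ u : ℕ, HasSum (fun n : ℕ => (jacobiSym u b : ℂ) * ((A n : ℂ) *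
      Complex.exp (2 * Real.pi * Complex.I * n * (z + u / b))))
      ((jacobiSym u b : ℂ) * gg (2 * (z + u / b))) := by
    intro u
    have him : 0 < (z + u / b : ℂ).im := by
      have : ((u : ℂ) / b).im = 0 := by
        have : ((u : ℂ) / b) = (((u : ℝ) / b : ℝ) : ℂ) := by push_cast; rfl
        rw [this, Complex.ofReal_im]
      rw [Complex.add_im, this, add_zero]
      exact hz
    have h2 := hasSum_A him
    simp only [qq_pow_eq] at h2
    exact h2.mul_left _
  have h3 := hasSum_sum (s := range b) (fun u _ => h1 u)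
  have h4 : (fun n : ℕ => ∑ u ∈ range b, (jacobiSym u b : ℂ) * ((A n : ℂ) *
      Complex.exp (2 * Real.pi * Complex.I * n * (z + u / b)))) = fun n : ℕ =>
      τ * (((an (ED b) n : ℤ) : ℂ) * Complex.exp (2 * Real.pi * Complex.I * n * z)) := by
    ext n
    rw [an_eq h, Int.cast_mul]
    calc ∑ u ∈ range b, (jacobiSym u b : ℂ) * ((A n : ℂ) *
          Complex.exp (2 * Real.pi * Complex.I * n * (z + u / b)))
        = ∑ u ∈ range b, ((A n : ℂ) * Complex.exp (2 * Real.pi * Complex.I * n * z)) *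
          ((jacobiSym u b : ℂ) * Complex.exp (2 * Real.pi * Complex.I * (u * n) / b)) := by
          refine sum_congr rfl fun u _ => ?_
          have e1 : Complex.exp (2 * Real.pi * Complex.I * n * (z + u / b)) =
              Complex.exp (2 * Real.pi * Complex.I * n * z) *
              Complex.exp (2 * Real.pi * Complex.I * (u * n) / b) := by
            rw [← Complex.exp_add]
            congr 1
            ring
          rw [e1]
          ring
      _ = _ := by
          rw [← mul_sum, hg n]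
          ring
  rw [h4] at h3
  unfold fE
  rw [ofComplex_apply_of_im_pos hz]
  have h5 := (h3.mul_left (τ : ℂ)⁻¹)
  have h6 : (fun n : ℕ => (τ : ℂ)⁻¹ * (τ * (((an (ED b) n : ℤ) : ℂ) *
      Complex.exp (2 * Real.pi * Complex.I * n * z)))) = fun n : ℕ => ((an (ED b) n : ℤ) : ℂ) *
      Complex.exp (2 * Real.pi * Complex.I * n * z) := by
    ext n
    rw [inv_mul_cancel_left₀ hτ0]
  rw [h6] at h5
  rw [div_eq_inv_mul]
  exact h5.tsum_eq

/-- the character sum of the integrals -/
noncomputable def SS (b : ℕ) (x : ℚ) : ℂ :=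
  ∑ u ∈ range b, (jacobiSym u b : ℂ) * J (x + 2 * u / b)

lemma prim_fE (h : Bp b) {τ : ℝ} (hτ : τ ^ 2 = b) (hg : ∀ n : ℕ,
    ∑ u ∈ range b, (jacobiSym u b : ℂ) * Complex.exp (2 * Real.pi * Complex.I * (u * n) / b) =
      τ * jacobiSym n b) (r : ℚ) : prim (fE (ED b)) (r : ℂ) = SS b (2 * r) / τ := by
  have h1 : Set.EqOn (fun t : ℝ => fE (ED b) (ofComplex ((r : ℂ) + t * Complex.I)))
      (fun t : ℝ => (∑ u ∈ range b, (jacobiSym u b : ℂ) *
        f20 (ofComplex (((r + u / b : ℚ) : ℂ) + t * Complex.I))) / τ) (Set.Ioi 0) := by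
    intro t ht
    have ht' : 0 < t := ht
    have him : 0 < ((r : ℂ) + t * Complex.I).im := by simpa using ht'
    dsimp only
    rw [fE_eq h hτ hg him]
    congr 1
    refine sum_congr rfl fun u _ => ?_
    have him2 : 0 < (((r + u / b : ℚ) : ℂ) + t * Complex.I).im := by
      rw [Complex.add_im]
      have e1 : (((r + u / b : ℚ) : ℂ)).im = 0 := Complex.ratCast_im _
      rw [e1, zero_add]
      simpa using ht'
    rw [f20_of him2]
    congr 2
    push_cast
    ring
  have h5 : (∫ t in Set.Ioi (0 : ℝ), ∑ u ∈ range b, (jacobiSym u b : ℂ) *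
        f20 (ofComplex (((r + u / b : ℚ) : ℂ) + t * Complex.I))) =
      ∑ u ∈ range b, ∫ t in Set.Ioi (0 : ℝ), (jacobiSym u b : ℂ) *
        f20 (ofComplex (((r + u / b : ℚ) : ℂ) + t * Complex.I)) :=
    integral_finsetSum _ (fun u _ => (int_f20 (r + u / b)).const_mul _)
  unfold prim
  rw [setIntegral_congr_fun measurableSet_Ioi h1, integral_div, h5]
  have h2 : ∀ u : ℕ, ∫ t in Set.Ioi (0 : ℝ), (jacobiSym u b : ℂ) *
      f20 (ofComplex (((r + u / b : ℚ) : ℂ) + t * Complex.I)) =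
      (jacobiSym u b : ℂ) * ∫ t in Set.Ioi (0 : ℝ),
        f20 (ofComplex (((r + u / b : ℚ) : ℂ) + t * Complex.I)) := fun u =>
    integral_const_mul _ _
  simp only [h2]
  unfold SS
  rw [← mul_div_assoc, Finset.mul_sum]
  congr 1
  refine sum_congr rfl fun u _ => ?_
  have h3 := prim_f20 (r + u / b)
  unfold prim at h3
  rw [mul_left_comm, h3]
  congr 2
  ring

end Pool.Agent.Z695.MT
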