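import Pool.Agent.Z695.MT.A

/-!
# The modular symbols of the twists at the cusps `a / 5^e`
-/

set_option autoImplicit false
set_option linter.all false

open Finset

namespace Pool.Agent.Z695.MT

open Pool.Agent.W97.V20 (fE J J0 lam Omega J_conj J0_pos)
open Pool.Agent.W97.MT (prim)
open Pool.Agent.Y695 (ED Om pf5 mu5 MR TS CC cf NN ch values5 J_U5 pt_one symW5 mu5_b I1 div_sum)

variable {b : ℕ}

lemma Bp.jneg (h : Bp b) (x : ℤ) : jacobiSym (-x) b = jacobiSym x b := by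
  rw [show -x = (-1) * x by ring, jacobiSym.mul_left, h.neg, one_mul]

lemma Bp.jadd (h : Bp b) (x : ℤ) : jacobiSym (b + x) b = jacobiSym x b := by
  rw [jacobiSym.mod_left, jacobiSym.mod_left x]
  congr 1
  simp

lemma Bp.j0 (h : Bp b) : jacobiSym ((0 : ℕ) : ℤ) b = 0 := by
  haveI : NeZero b := ⟨h.prime.ne_zero⟩
  rw [jacobiSym.eq_zero_iff_not_coprime]
  simp only [Nat.cast_zero, Int.gcd_zero_left, Int.natAbs_natCast]
  exact h.prime.one_lt.ne'

lemma SS_eq (h : Bp b) (x : ℚ) : SS b x = ∑ u ∈ Icc 1 (b - 1), (jacobiSym u b : ℂ) *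
    J (x + 2 * u / b) := by
  unfold SS
  have h1 : range b = insert 0 (Icc 1 (b - 1)) := by
    ext u
    rw [mem_range, mem_insert, mem_Icc]
    have := h.prime.one_lt
    omega
  rw [h1, sum_insert (by simp), h.j0]
  simp

lemma SS_conj (h : Bp b) (x : ℚ) : SS b (-x) = starRingEnd ℂ (SS b x) := by
  rw [SS_eq h, SS_eq h, map_sum]
  have hb := h.prime.one_lt
  refine sum_nbij' (fun u => b - u) (fun u => b - u) ?_ ?_ ?_ ?_ ?_
  · intro u hu
    rw [mem_Icc] at hu ⊢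
    omega
  · intro u hu
    rw [mem_Icc] at hu ⊢
    omega
  · intro u hu
    rw [mem_Icc] at hu
    omega
  · intro u hu
    rw [mem_Icc] at hu
    omega
  · intro u hu
    rw [mem_Icc] at hu
    have h1 : jacobiSym ((b - u : ℕ) : ℤ) b = jacobiSym u b := by
      rw [Nat.cast_sub (by omega), sub_eq_add_neg, h.jadd, h.jneg]
    rw [h1, map_mul, ← J_conj]
    have h2 : (starRingEnd ℂ) ((jacobiSym u b : ℤ) : ℂ) = ((jacobiSym u b : ℤ) : ℂ) :=
      map_intCast (starRingEnd ℂ) _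
    rw [h2]
    congr 1
    rw [← Pool.Agent.W97.V20.J_add_two (-(x + 2 * ((b - u : ℕ) : ℚ) / b))]
    congr 1
    rw [Nat.cast_sub (by omega)]
    have hb0 : (b : ℚ) ≠ 0 := by exact_mod_cast h.prime.ne_zero
    field_simp
    ring

lemma SS_add_two (x : ℚ) : SS b (x + 2) = SS b x := by
  unfold SS
  refine sum_congr rfl fun u _ => ?_
  rw [← Pool.Agent.W97.V20.J_add_two (x + 2 * u / b)]
  congr 2
  ring

/-- the real part of the symbol -/
noncomputable def Lr (b : ℕ) (x : ℚ) : ℝ := (SS b (2 * x)).re / J0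

lemma Lr_neg (h : Bp b) (x : ℚ) : Lr b (-x) = Lr b x := by
  unfold Lr
  rw [mul_neg, SS_conj h, Complex.conj_re]

lemma Lr_add (x : ℚ) : Lr b (x + 1) = Lr b x := by
  unfold Lr
  rw [show 2 * (x + 1) = 2 * x + 2 by ring, SS_add_two]

/-- the modular symbols -/
theorem lam_eq (h : Bp b) : ∃ ε : ℤ, (ε = 1 ∨ ε = -1) ∧ ∀ a M : ℤ,
    lam (ED b) a M = ((ε * Lr b ((a : ℚ) / M) / 2 : ℝ) : ℂ) := by
  obtain ⟨τ, hτ, hg⟩ := gauss h
  have hb : (0 : ℝ) < b := by exact_mod_cast h.prime.pos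
  have hs : 0 < Real.sqrt b := Real.sqrt_pos.2 hb
  have hε : ∃ ε : ℤ, (ε = 1 ∨ ε = -1) ∧ Real.sqrt b = ε * τ := by
    have h1 : Real.sqrt b ^ 2 = τ ^ 2 := by rw [hτ, Real.sq_sqrt hb.le]
    rcases sq_eq_sq_iff_eq_or_eq_neg.1 h1 with h | h
    · exact ⟨1, Or.inl rfl, by rw [h]; simp⟩
    · exact ⟨-1, Or.inr rfl, by rw [h]; simp⟩
  obtain ⟨ε, h1, h2⟩ := hε
  refine ⟨ε, h1, fun a M => ?_⟩
  have hO : Omega (ED b) = 2 * J0 / Real.sqrt b := by
    have h3 : Om (ED b) = 2 * Omega (ED b) := rfl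
    have h4 := Pool.Agent.Y695.Om_pos (D := (b : ℤ)) (by exact_mod_cast h.prime.pos)
    have h5 : |((b : ℤ) : ℝ)| = b := by
      rw [abs_of_nonneg (by exact_mod_cast Nat.zero_le b)]
      simp
    rw [h3, h5] at h4
    have : Omega (ED b) = 4 * J0 / Real.sqrt b / 2 := by linarith
    rw [this]
    ring
  have hτ0 : τ ≠ 0 := by
    intro h0
    rw [h0, mul_zero] at h2
    exact hs.ne' h2
  have e1 := prim_fE h hτ hg ((a : ℚ) / M)
  have e2 := prim_fE h hτ hg (-((a : ℚ) / M))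
  unfold lam
  rw [e1, e2, mul_neg, SS_conj h, ← add_div, Complex.add_conj, hO]
  unfold Lr
  have hJ := J0_pos
  set R := (SS b (2 * ((a : ℚ) / M))).re with hR
  have key : 2 * R / τ / (2 * (2 * J0 / Real.sqrt b)) = ε * (R / J0) / 2 := by
    have hJ' := hJ.ne'
    rw [h2] at hs ⊢
    have hε0 : (ε : ℝ) ≠ 0 := by
      rcases h1 with h1 | h1 <;> rw [h1] <;> norm_num
    field_simp
  rw [← key]
  push_cast
  ring

/-- multiplication by five on the residues -/
lemma sum_five (h : Bp b) (g : ℕ → ℂ) (hg : ∀ v, g (v % b) = g v) :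
    ∑ u ∈ range b, (jacobiSym u b : ℂ) * g (5 * u) =
      -∑ v ∈ range b, (jacobiSym v b : ℂ) * g v := by
  have hb := h.prime.pos
  have hodd : Odd b := by rw [Nat.odd_iff]; have := h.mod4; omega
  have h5 : jacobiSym 5 b = -1 := by rw [Pool.Agent.Y695.jac_five hodd, h.jac5]
  have hc : Nat.Coprime 5 b :=
    (Nat.coprime_primes (by norm_num) h.prime).2 (fun e => h.ne5 e.symm)
  obtain ⟨c, hcc⟩ := Nat.exists_mul_mod_eq_one_of_coprime hc h.prime.one_lt
  rw [← sum_neg_distrib]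
  refine sum_nbij' (fun u => 5 * u % b) (fun v => c * v % b) ?_ ?_ ?_ ?_ ?_
  · intro u _
    rw [mem_range]
    exact Nat.mod_lt _ hb
  · intro u _
    rw [mem_range]
    exact Nat.mod_lt _ hb
  · intro u hu
    rw [mem_range] at hu
    show c * (5 * u % b) % b = u
    rw [Nat.mul_mod, Nat.mod_mod, ← Nat.mul_mod, ← mul_assoc, Nat.mul_mod, mul_comm c 5, hcc.2,
      one_mul, Nat.mod_mod, Nat.mod_eq_of_lt hu]
  · intro u hu
    rw [mem_range] at hu
    show 5 * (c * u % b) % b = u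
    rw [Nat.mul_mod, Nat.mod_mod, ← Nat.mul_mod, ← mul_assoc, Nat.mul_mod, hcc.2,
      one_mul, Nat.mod_mod, Nat.mod_eq_of_lt hu]
  · intro u _
    show (jacobiSym u b : ℂ) * g (5 * u) = -((jacobiSym ((5 * u % b : ℕ) : ℤ) b : ℂ) * g (5 * u % b))
    have e1 : jacobiSym ((5 * u % b : ℕ) : ℤ) b = -jacobiSym u b := by
      rw [Int.natCast_mod, ← jacobiSym.mod_left]
      push_cast
      rw [jacobiSym.mul_left, h5]
      ring
    rw [e1, hg]
    push_cast
    ring

/-- the Hecke relation at five -/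
theorem SS_U5 (h : Bp b) (x : ℚ) :
    ∑ j ∈ range 5, SS b (2 * (x + (j : ℚ) / 5)) = SS b (2 * (5 * x)) := by
  have hb0 : (b : ℚ) ≠ 0 := by exact_mod_cast h.prime.ne_zero
  unfold SS
  rw [sum_comm]
  have h1 : ∀ u ∈ range b, ∑ j ∈ range 5, (jacobiSym u b : ℂ) *
      J (2 * (x + (j : ℚ) / 5) + 2 * u / b) =
      -((jacobiSym u b : ℂ) * J (2 * (5 * x) + 2 * ((5 * u : ℕ) : ℚ) / b)) := by
    intro u _
    rw [← mul_sum]
    have h2 := J_U5 (x + u / b)
    have h3 : ∑ j ∈ range 5, J (2 * (x + (j : ℚ) / 5) + 2 * u / b) =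
        ∑ j ∈ range 5, J (2 * (x + u / b + (j : ℚ) / 5)) := by
      refine sum_congr rfl fun j _ => ?_
      congr 1
      ring
    rw [h3, ← h2]
    have h4 : 2 * (5 * (x + u / b)) = 2 * (5 * x) + 2 * ((5 * u : ℕ) : ℚ) / b := by
      push_cast
      ring
    rw [h4]
    ring
  rw [sum_congr rfl h1, sum_neg_distrib]
  have h5 := sum_five h (fun v => J (2 * (5 * x) + 2 * (v : ℚ) / b)) (by
    intro v
    have h6 : ∀ k w : ℕ, J (2 * (5 * x) + 2 * ((w + b * k : ℕ) : ℚ) / b) =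
        J (2 * (5 * x) + 2 * (w : ℚ) / b) := by
      intro k
      induction k with
      | zero => intro w; simp
      | succ k ih =>
        intro w
        rw [← ih w, ← Pool.Agent.W97.V20.J_add_two (2 * (5 * x) + 2 * ((w + b * k : ℕ) : ℚ) / b)]
        congr 1
        push_cast
        field_simp
        ring
    have h7 := h6 (v / b) (v % b)
    rw [Nat.mod_add_div] at h7
    exact h7.symm)
  rw [h5, neg_neg]

end Pool.Agent.Z695.MT
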