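import Pool.Agent.Z695.MT.B

/-!
# The sums of the modular symbols of the twists over the cusps `a / 5^e`
-/

set_option autoImplicit false
set_option linter.all false

open Finset

namespace Pool.Agent.Z695.MT

open Pool.Agent.W97.V20 (fE J J0 lam Omega J_conj J0_pos)
open Pool.Agent.W97.MT (prim)
open Pool.Agent.Y695 (ED Om pf5 mu5 MR TS CC cf NN ch values5 J_U5 pt_one symW5 mu5_b I1 div_sum
  pf5_eq mu mem_CC)

variable {b : ℕ}

/-- the numerator and the denominator -/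
lemma rat_b (h : Bp b) {e c u : ℕ} (hc : ¬ 5 ∣ c) (hu : u ∈ Icc 1 (b - 1)) :
    ((2 * ((c : ℚ) / ((5 ^ e : ℕ) : ℚ)) + 2 * u / b : ℚ)).den = 5 ^ e * b ∧
    ((2 * ((c : ℚ) / ((5 ^ e : ℕ) : ℚ)) + 2 * u / b : ℚ)).num =
      ((2 * (b * c + 5 ^ e * u) : ℕ) : ℤ) := by
  rw [mem_Icc] at hu
  have hb := h.prime.one_lt
  have hbQ : (b : ℚ) ≠ 0 := by exact_mod_cast h.prime.ne_zero
  have e0 : (2 * ((c : ℚ) / ((5 ^ e : ℕ) : ℚ)) + 2 * u / b : ℚ) =
      (((2 * (b * c + 5 ^ e * u) : ℕ) : ℤ) : ℚ) / (((5 ^ e * b : ℕ) : ℤ) : ℚ) := by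
    push_cast
    field_simp
  have h5b : Nat.Coprime 5 b :=
    (Nat.coprime_primes (by norm_num) h.prime).2 (fun e => h.ne5 e.symm)
  have h2b : Nat.Coprime 2 b :=
    (Nat.coprime_primes (by norm_num) h.prime).2 (fun e => h.ne2 e.symm)
  have hub : Nat.Coprime u b := by
    rw [Nat.coprime_comm, h.prime.coprime_iff_not_dvd]
    exact Nat.not_dvd_of_pos_of_lt (by omega) (by omega)
  have hc5 : Nat.Coprime c 5 := by
    rw [Nat.coprime_comm, (by norm_num : Nat.Prime 5).coprime_iff_not_dvd]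
    exact hc
  have hcop : Nat.Coprime (2 * (b * c + 5 ^ e * u)) (5 ^ e * b) := by
    rw [Nat.coprime_mul_iff_right]
    constructor
    · rcases Nat.eq_zero_or_pos e with rfl | he
      · simp
      · apply Nat.Coprime.pow_right
        apply Nat.Coprime.mul_left (by norm_num)
        obtain ⟨k, rfl⟩ : ∃ k, e = k + 1 := ⟨e - 1, by omega⟩
        have e1 : b * c + 5 ^ (k + 1) * u = b * c + (5 ^ k * u) * 5 := by ring
        rw [e1, Nat.coprime_add_mul_right_left]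
        exact Nat.Coprime.mul_left h5b.symm hc5
    · apply Nat.Coprime.mul_left h2b
      rw [Nat.coprime_mul_left_add_left]
      exact Nat.Coprime.mul_left (h5b.pow_left e) hub
  have hpos : (0 : ℤ) < ((5 ^ e * b : ℕ) : ℤ) := by
    have := Nat.mul_pos (pow_pos (by norm_num : 0 < 5) e) h.prime.pos
    exact_mod_cast this
  rw [e0]
  constructor
  · have := Rat.den_div_eq_of_coprime (a := ((2 * (b * c + 5 ^ e * u) : ℕ) : ℤ))
      (b := ((5 ^ e * b : ℕ) : ℤ)) hpos (by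
        rw [Int.natAbs_natCast, Int.natAbs_natCast]
        exact hcop)
    exact_mod_cast this
  · exact Rat.num_div_eq_of_coprime hpos (by
        rw [Int.natAbs_natCast, Int.natAbs_natCast]
        exact hcop)

lemma odd_zmod (n : ℤ) : Odd n ↔ (n : ZMod 2) = 1 := by
  rw [← Int.cast_one, ZMod.intCast_eq_intCast_iff, Int.odd_iff]
  rfl

/-- **the symbols are even integers** -/
theorem Lr_even (h : Bp b) {e c : ℕ} (he : 1 ≤ e) (hc : ¬ 5 ∣ c) :
    ∃ k : ℤ, Lr b ((c : ℚ) / ((5 ^ e : ℕ) : ℚ)) = 2 * k := by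
  have hJ := J0_pos
  have h1 : ∀ u : ℕ, ∃ n m : ℤ, u ∈ Icc 1 (b - 1) →
      J (2 * ((c : ℚ) / ((5 ^ e : ℕ) : ℚ)) + 2 * u / b) = n * J0 + m * I1 * Complex.I ∧
      (Odd n ↔ jacobiSym c 5 = -1) := by
    intro u
    by_cases hu : u ∈ Icc 1 (b - 1)
    · obtain ⟨h2, h3⟩ := rat_b h (e := e) hc hu
      obtain ⟨n, m, h4, -, h5⟩ := values5 (2 * ((c : ℚ) / ((5 ^ e : ℕ) : ℚ)) + 2 * u / b) (by
        rw [h2]
        obtain ⟨k, rfl⟩ : ∃ k, e = k + 1 := ⟨e - 1, by omega⟩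
        push_cast
        exact ⟨5 ^ k * b, by ring⟩)
      refine ⟨n, m, fun _ => ⟨h4, ?_⟩⟩
      rw [h5, h3]
      have e1 : jacobiSym ((2 * (b * c + 5 ^ e * u) : ℕ) : ℤ) 5 = jacobiSym c 5 := by
        obtain ⟨k, rfl⟩ : ∃ k, e = k + 1 := ⟨e - 1, by omega⟩
        have e2 : jacobiSym ((2 * (b * c + 5 ^ (k + 1) * u) : ℕ) : ℤ) 5 =
            jacobiSym (2 * (b * c)) 5 := by
          rw [jacobiSym.mod_left, jacobiSym.mod_left (2 * ((b : ℤ) * c))]
          congr 1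
          push_cast
          have : (2 * ((b : ℤ) * c + 5 ^ (k + 1) * u)) = 2 * (b * c) + 5 * (2 * 5 ^ k * u) := by
            ring
          rw [this, Int.add_mul_emod_self_left]
        rw [e2, jacobiSym.mul_left, jacobiSym.mul_left, h.jac5]
        have h6 : jacobiSym 2 5 = -1 := by norm_num
        rw [h6]
        ring
      rw [e1]
    · exact ⟨0, 0, fun h => absurd h hu⟩
  choose n m hnm using h1
  -- the real part
  have h2 : Lr b ((c : ℚ) / ((5 ^ e : ℕ) : ℚ)) =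
      ((∑ u ∈ Icc 1 (b - 1), jacobiSym u b * n u : ℤ) : ℝ) := by
    unfold Lr
    rw [SS_eq h, Complex.re_sum]
    have h3 : ∀ u ∈ Icc 1 (b - 1), ((jacobiSym u b : ℂ) *
        J (2 * ((c : ℚ) / ((5 ^ e : ℕ) : ℚ)) + 2 * u / b)).re =
        ((jacobiSym u b * n u : ℤ) : ℝ) * J0 := by
      intro u hu
      rw [(hnm u hu).1]
      have e1 : ((jacobiSym u b : ℂ) * (n u * J0 + m u * I1 * Complex.I)) =
          (((jacobiSym u b * n u : ℤ) * J0 : ℝ) : ℂ) +
          (((jacobiSym u b * m u : ℤ) * I1 : ℝ) : ℂ) * Complex.I := by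
        push_cast
        ring
      rw [e1, Complex.add_re, Complex.re_ofReal_mul, Complex.I_re, mul_zero, add_zero,
        Complex.ofReal_re]
    rw [sum_congr rfl h3, ← sum_mul, mul_div_assoc, div_self hJ.ne', mul_one]
    push_cast
    rfl
  have h3 : Even (∑ u ∈ Icc 1 (b - 1), jacobiSym u b * n u) := by
    rw [← Int.not_odd_iff_even, odd_zmod]
    have hj : ∀ u ∈ Icc 1 (b - 1), ((jacobiSym u b : ℤ) : ZMod 2) = 1 := by
      intro u hu
      rw [mem_Icc] at hu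
      have hb := h.prime.one_lt
      have : jacobiSym u b = 1 ∨ jacobiSym u b = -1 := by
        apply jacobiSym.eq_one_or_neg_one
        rw [Int.gcd_natCast_natCast]
        have : Nat.Coprime u b := by
          rw [Nat.coprime_comm, h.prime.coprime_iff_not_dvd]
          exact Nat.not_dvd_of_pos_of_lt (by omega) (by omega)
        exact this
      rcases this with h | h <;> rw [h] <;> decide
    have hn : ∀ u ∈ Icc 1 (b - 1), ((n u : ℤ) : ZMod 2) = if jacobiSym c 5 = -1 then 1 else 0 := by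
      intro u hu
      have h4 := (hnm u hu).2
      split_ifs with hc'
      · exact (odd_zmod _).1 (h4.2 hc')
      · have h5 : ¬ Odd (n u) := fun h => hc' (h4.1 h)
        rw [Int.not_odd_iff_even] at h5
        obtain ⟨t, ht⟩ := h5
        rw [ht]
        push_cast
        exact CharTwo.add_self_eq_zero _
    have h6 : (((∑ u ∈ Icc 1 (b - 1), jacobiSym u b * n u : ℤ)) : ZMod 2) =
        ((b - 1 : ℕ) : ZMod 2) * (if jacobiSym c 5 = -1 then 1 else 0) := by
      push_cast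
      rw [sum_congr rfl (fun u hu => by rw [hj u hu, hn u hu, one_mul]), sum_const, Nat.card_Icc,
        nsmul_eq_mul]
      simp
    rw [h6]
    have h7 : ((b - 1 : ℕ) : ZMod 2) = 0 := by
      rw [ZMod.natCast_eq_zero_iff]
      have := h.mod4
      omega
    rw [h7, zero_mul]
    decide
  obtain ⟨k, hk⟩ := h3
  refine ⟨k, ?_⟩
  rw [h2, hk]
  push_cast
  ring

/-- the weighted sums -/
noncomputable def WS (b : ℕ) (w : ℕ → ℂ) (e : ℕ) : ℂ :=
  ∑ c ∈ range (5 ^ e), w (c % 5) * SS b (2 * ((c : ℚ) / ((5 ^ e : ℕ) : ℚ)))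

lemma WS_succ (h : Bp b) (w : ℕ → ℂ) {e : ℕ} (he : 1 ≤ e) : WS b w (e + 1) = WS b w e := by
  unfold WS
  rw [pow_succ, div_sum (pow_pos (by norm_num : 0 < 5) e), sum_comm]
  refine sum_congr rfl fun j _ => ?_
  have h1 : ∀ i ∈ range 5, w ((i * 5 ^ e + j) % 5) *
      SS b (2 * (((i * 5 ^ e + j : ℕ) : ℚ) / ((5 ^ e * 5 : ℕ) : ℚ))) =
      w (j % 5) * SS b (2 * ((j : ℚ) / ((5 ^ e * 5 : ℕ) : ℚ) + (i : ℚ) / 5)) := by
    intro i _
    congr 2
    · obtain ⟨k, rfl⟩ : ∃ k, e = k + 1 := ⟨e - 1, by omega⟩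
      have : i * 5 ^ (k + 1) + j = j + 5 * (i * 5 ^ k) := by ring
      rw [this, Nat.add_mul_mod_self_left]
    · have h5 : (5 : ℚ) ^ e ≠ 0 := by positivity
      push_cast
      field_simp
      ring
  rw [sum_congr rfl h1, ← mul_sum, SS_U5 h]
  congr 3
  have h5 : (5 : ℚ) ^ e ≠ 0 := by positivity
  push_cast
  field_simp

lemma WS_one (h : Bp b) (w : ℕ → ℂ) {e : ℕ} (he : 1 ≤ e) : WS b w e = WS b w 1 := by
  induction e, he using Nat.le_induction with
  | base => rfl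
  | succ e he ih => rw [WS_succ h w he, ih]

/-- the total sum -/
lemma WS_triv (h : Bp b) : WS b (fun r => if r = 0 then 0 else 1) 1 = 0 := by
  have h1 := SS_U5 h 0
  unfold WS
  simp only [sum_range_succ, sum_range_zero, pow_one] at h1 ⊢
  norm_num at h1 ⊢
  linear_combination h1

/-- the sum twisted by the character -/
lemma WS_chi (h : Bp b) : WS b (fun r => (jacobiSym r 5 : ℂ)) 1 = MR pf5 {b} := by
  have h1 : MR pf5 {b} = ∑ u ∈ range b, (jacobiSym u b : ℂ) * pf5 ((u : ℚ) / b) := by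
    unfold MR TS CC
    rw [NN_b, sum_filter]
    refine sum_congr rfl fun u _ => ?_
    split_ifs with hc
    · unfold cf
      rw [ch_b]
    · haveI : NeZero b := ⟨h.prime.ne_zero⟩
      have h8 : jacobiSym u b = 0 := by
        rw [jacobiSym.eq_zero_iff_not_coprime]
        intro h9
        exact hc (by
          rw [Int.gcd_natCast_natCast] at h9
          exact h9)
      rw [h8]
      simp
  rw [h1]
  have h2 : ∀ u ∈ range b, (jacobiSym u b : ℂ) * pf5 ((u : ℚ) / b) =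
      ∑ c ∈ range 5, (jacobiSym ((c % 5 : ℕ) : ℤ) 5 : ℂ) * ((jacobiSym u b : ℂ) *
        J (2 * ((c : ℚ) / ((5 ^ 1 : ℕ) : ℚ)) + 2 * u / b)) := by
    intro u _
    rw [pf5_eq]
    rw [sum_range_succ, sum_range_succ, sum_range_succ, sum_range_succ, sum_range_succ,
      sum_range_zero]
    have h0 : jacobiSym ((0 % 5 : ℕ) : ℤ) 5 = 0 := by norm_num
    have h1 : jacobiSym ((1 % 5 : ℕ) : ℤ) 5 = 1 := by norm_num
    have h2 : jacobiSym ((2 % 5 : ℕ) : ℤ) 5 = -1 := by norm_num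
    have h3 : jacobiSym ((3 % 5 : ℕ) : ℤ) 5 = -1 := by norm_num
    have h4 : jacobiSym ((4 % 5 : ℕ) : ℤ) 5 = 1 := by norm_num
    rw [h0, h1, h2, h3, h4]
    have e1 : (2 * (((1 : ℕ) : ℚ) / ((5 ^ 1 : ℕ) : ℚ)) + 2 * u / b : ℚ) = 2 * ((u : ℚ) / b + 1 / 5) := by
      push_cast; ring
    have e2 : (2 * (((2 : ℕ) : ℚ) / ((5 ^ 1 : ℕ) : ℚ)) + 2 * u / b : ℚ) = 2 * ((u : ℚ) / b + 2 / 5) := by
      push_cast; ring
    have e3 : (2 * (((3 : ℕ) : ℚ) / ((5 ^ 1 : ℕ) : ℚ)) + 2 * u / b : ℚ) = 2 * ((u : ℚ) / b + 3 / 5) := by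
      push_cast; ring
    have e4 : (2 * (((4 : ℕ) : ℚ) / ((5 ^ 1 : ℕ) : ℚ)) + 2 * u / b : ℚ) = 2 * ((u : ℚ) / b + 4 / 5) := by
      push_cast; ring
    rw [e1, e2, e3, e4]
    push_cast
    ring
  rw [sum_congr rfl h2, sum_comm]
  unfold WS SS
  rw [pow_one]
  refine sum_congr rfl fun c _ => ?_
  rw [← mul_sum]

/-- **the twisted sum is eight times an odd integer** -/
theorem WS_odd (h : Bp b) {e : ℕ} (he : 1 ≤ e) : ∃ c : ℤ, Odd c ∧
    (WS b (fun r => (jacobiSym r 5 : ℂ)) e).re / J0 = 8 * c := by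
  rw [WS_one h _ he, WS_chi h]
  obtain ⟨c, hc, h1⟩ := mu5_b ∅ b (by rw [insert_empty_eq]; exact h.adm) (notMem_empty _)
    (fun q hq => absurd hq (notMem_empty _)) h.mod4 h.jac5 (by simp)
  refine ⟨c, hc, ?_⟩
  rw [insert_empty_eq, card_singleton] at h1
  have h2 := symW5.mu_spec h.adm 1 (Or.inl rfl)
  rw [ch_b, h.neg, if_pos rfl, pt_one] at h2
  rw [h2]
  have h3 : mu pf5 J0 I1 {b} = 2 ^ (1 + 2) * c := h1
  rw [h3]
  push_cast
  norm_num

end Pool.Agent.Z695.MT
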