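import Pool.Agent.W97.V20.Defs

/-!
# The quadratic character modulo five on the group ring
-/

set_option autoImplicit false
set_option linter.all false

open Finset

namespace Pool.Agent.Z695.MT

open Pool.Agent.W97.V20 (GM RM aug IsTheta lam)

lemma jac_val {M : ℕ} [NeZero M] (h5 : 5 ∣ M) {z : ℤ} {a : ZMod M} (h : (z : ZMod M) = a) :
    jacobiSym (a.val : ℤ) 5 = jacobiSym z 5 := by
  have h1 : (((a.val : ℕ) : ℤ) : ZMod M) = (z : ZMod M) := by
    rw [h]
    simp
  rw [ZMod.intCast_eq_intCast_iff] at h1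
  have h2 : ((a.val : ℕ) : ℤ) ≡ z [ZMOD (5 : ℕ)] := h1.of_dvd (by exact_mod_cast h5)
  rw [jacobiSym.mod_left, jacobiSym.mod_left z]
  rw [h2]

/-- the quadratic character modulo five -/
def chiU (M : ℕ) [NeZero M] (h5 : 5 ∣ M) : (ZMod M)ˣ →* ℤ where
  toFun a := jacobiSym ((a : ZMod M).val : ℤ) 5
  map_one' := by
    rw [jac_val h5 (z := 1) (by simp), jacobiSym.one_left]
  map_mul' a b := by
    rw [jac_val h5 (a := ((a * b : (ZMod M)ˣ) : ZMod M))
      (z := ((a : ZMod M).val : ℤ) * ((b : ZMod M).val : ℤ)) (by simp), jacobiSym.mul_left]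

lemma chiU_apply {M : ℕ} [NeZero M] (h5 : 5 ∣ M) (a : (ZMod M)ˣ) :
    chiU M h5 a = jacobiSym ((a : ZMod M).val : ℤ) 5 := rfl

lemma chiU_neg {M : ℕ} [NeZero M] (h5 : 5 ∣ M) : chiU M h5 (-1) = 1 := by
  rw [chiU_apply, jac_val h5 (z := -1) (by simp)]
  norm_num

/-- the character of the quotient -/
def chiG (M : ℕ) [NeZero M] (h5 : 5 ∣ M) : GM M →* ℤ :=
  QuotientGroup.lift _ (chiU M h5) (by
    intro x hx
    obtain ⟨k, rfl⟩ := Subgroup.mem_zpowers_iff.1 hx
    rcases Int.even_or_odd k with ⟨m, rfl⟩ | ⟨m, rfl⟩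
    · rw [← two_mul, zpow_mul]
      simp
    · rw [zpow_add, zpow_mul, zpow_one]
      simp [chiU_neg])

lemma chiG_mk {M : ℕ} [NeZero M] (h5 : 5 ∣ M) (a : (ZMod M)ˣ) :
    chiG M h5 (QuotientGroup.mk a) = jacobiSym ((a : ZMod M).val : ℤ) 5 := rfl

lemma unit_not_dvd {M : ℕ} [NeZero M] (h5 : 5 ∣ M) (a : (ZMod M)ˣ) : ¬ 5 ∣ (a : ZMod M).val := by
  intro h
  have h1 := ZMod.val_coe_unit_coprime a
  have h2 := Nat.dvd_gcd h h5
  rw [h1] at h2
  norm_num at h2

lemma chiG_pm {M : ℕ} [NeZero M] (h5 : 5 ∣ M) (g : GM M) : chiG M h5 g = 1 ∨ chiG M h5 g = -1 := by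
  obtain ⟨a, rfl⟩ := QuotientGroup.mk_surjective g
  rw [chiG_mk]
  apply jacobiSym.eq_one_or_neg_one
  rw [Int.gcd_natCast_natCast]
  have : Nat.Coprime (a : ZMod M).val 5 := by
    rw [Nat.coprime_comm, (by norm_num : Nat.Prime 5).coprime_iff_not_dvd]
    exact unit_not_dvd h5 a
  exact this

variable (R : Type) [CommRing R]

/-- the character with values in the ring -/
def chiR (M : ℕ) [NeZero M] (h5 : 5 ∣ M) : GM M →* R :=
  ((Int.castRingHom R).toMonoidHom).comp (chiG M h5)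

lemma chiR_apply {M : ℕ} [NeZero M] (h5 : 5 ∣ M) (g : GM M) :
    chiR R M h5 g = ((chiG M h5 g : ℤ) : R) := rfl

lemma two_dvd_sub {G : Type} [CommGroup G] (F : G →* R) (hF : ∀ g, F g = 1 ∨ F g = -1)
    (x : MonoidAlgebra R G) : (2 : R) ∣ MonoidAlgebra.lift R R G F x -
      MonoidAlgebra.lift R R G (1 : G →* R) x := by
  induction x using MonoidAlgebra.induction_linear with
  | zero => simp
  | add x y hx hy =>
    rw [map_add, map_add]
    have := dvd_add hx hy
    refine this.trans (dvd_of_eq ?_)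
    ring
  | single g r =>
    rw [MonoidAlgebra.lift_single, MonoidAlgebra.lift_single, MonoidHom.one_apply]
    rcases hF g with h | h
    · rw [h]; simp
    · rw [h]
      refine ⟨-r, ?_⟩
      simp only [smul_eq_mul]
      ring

/-- **the square of the augmentation ideal** -/
theorem four_dvd_lift {G : Type} [CommGroup G] (F : G →* R) (hF : ∀ g, F g = 1 ∨ F g = -1)
    (x : MonoidAlgebra R G) (hx : x ∈ aug R G ^ 2) :
    ∃ r : R, MonoidAlgebra.lift R R G F x = 2 ^ 2 * r := by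
  let φ : MonoidAlgebra R G →+* R := (MonoidAlgebra.lift R R G F).toRingHom
  have h1 : aug R G ≤ Ideal.comap φ (Ideal.span {2}) := by
    intro y hy
    have h2 : MonoidAlgebra.lift R R G (1 : G →* R) y = 0 := hy
    have h3 := two_dvd_sub R F hF y
    rw [h2, sub_zero] at h3
    rw [Ideal.mem_comap]
    exact Ideal.mem_span_singleton.2 h3
  have h2 : x ∈ Ideal.comap φ (Ideal.span {2} ^ 2) :=
    (Ideal.le_comap_pow φ 2) (Ideal.pow_right_mono h1 2 hx)
  rw [Ideal.mem_comap, Ideal.span_singleton_pow, Ideal.mem_span_singleton] at h2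
  obtain ⟨r, hr⟩ := h2
  exact ⟨r, hr⟩

/-- the value of the lift -/
lemma lift_sum {G : Type} [CommGroup G] [Fintype G] (φ : G →* R) (x : MonoidAlgebra R G) :
    MonoidAlgebra.lift R R G φ x = ∑ g : G, x.coeff g * φ g := by
  rw [MonoidAlgebra.lift_apply, Finsupp.sum_fintype _ _ (fun g => by simp)]
  rfl

lemma card_neg {M : ℕ} (hM : 2 < M) : Nat.card (Subgroup.zpowers (-1 : (ZMod M)ˣ)) = 2 := by
  haveI : Fact (2 < M) := ⟨hM⟩
  rw [Nat.card_zpowers]
  refine orderOf_eq_prime (by simp) ?_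
  intro h
  have h1 : (-1 : ZMod M) = 1 := by
    have := congrArg Units.val h
    simpa using this
  exact ZMod.neg_one_ne_one h1

/-- the sum over the units -/
lemma sum_units {M : ℕ} [NeZero M] [Fintype (GM M)] (hM : 2 < M) (F : GM M → ℂ) :
    ∑ a : (ZMod M)ˣ, F (QuotientGroup.mk a) = 2 * ∑ g : GM M, F g := by
  classical
  rw [← Finset.sum_fiberwise (s := (univ : Finset (ZMod M)ˣ))
    (g := fun a => (QuotientGroup.mk a : GM M)), mul_sum]
  refine sum_congr rfl fun g _ => ?_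
  have h1 : ∀ a ∈ (univ : Finset (ZMod M)ˣ).filter (fun a => (QuotientGroup.mk a : GM M) = g),
      F (QuotientGroup.mk a) = F g := by
    intro a ha
    rw [(mem_filter.1 ha).2]
  rw [sum_congr rfl h1, sum_const, nsmul_eq_mul]
  congr 1
  have h2 := QuotientGroup.card_preimage_mk (Subgroup.zpowers (-1 : (ZMod M)ˣ)) ({g} : Set (GM M))
  rw [card_neg hM, Nat.card_unique (α := ({g} : Set (GM M))), mul_one] at h2
  have h3 : ((univ : Finset (ZMod M)ˣ).filter (fun a => (QuotientGroup.mk a : GM M) = g)).card =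
      Nat.card (QuotientGroup.mk ⁻¹' ({g} : Set (GM M)) : Set (ZMod M)ˣ) := by
    rw [Nat.card_coe_set_eq, ← Set.ncard_coe_finset]
    congr 1
    ext a
    simp
  rw [h3, h2]
  norm_num

/-- the units and the coprime residues -/
lemma sum_units_range {M : ℕ} [NeZero M] (f : ℕ → ℂ) :
    ∑ a : (ZMod M)ˣ, f (a : ZMod M).val = ∑ c ∈ (range M).filter (fun c => c.Coprime M), f c := by
  refine Finset.sum_bij (fun a _ => (a : ZMod M).val) ?_ ?_ ?_ ?_
  · intro a _
    rw [mem_filter, mem_range]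
    exact ⟨ZMod.val_lt _, ZMod.val_coe_unit_coprime a⟩
  · intro a _ a' _ h
    exact Units.ext (ZMod.val_injective M h)
  · intro c hc
    rw [mem_filter, mem_range] at hc
    refine ⟨ZMod.unitOfCoprime c hc.2, mem_univ _, ?_⟩
    rw [ZMod.coe_unitOfCoprime, ZMod.val_natCast, Nat.mod_eq_of_lt hc.1]
  · intro a _
    rfl

end Pool.Agent.Z695.MT
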