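import Pool.Agent.Z695.MT.C
import Pool.Agent.Z695.MT.D

/-!
# The Mazur-Tate elements of the twists at the powers of five
-/

set_option autoImplicit false
set_option linter.all false

open Finset

namespace Pool.Agent.Z695.MT

open Pool.Agent.W97.V20 (fE J J0 lam Omega J_conj J0_pos GM RM aug IsTheta)
open Pool.Agent.Y695 (ED)

variable {b : ℕ}

lemma cop_iff {e c : ℕ} (he : 1 ≤ e) : c.Coprime (5 ^ e) ↔ ¬ 5 ∣ c := by
  rw [Nat.coprime_pow_right_iff (by omega), Nat.coprime_comm,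
    (by norm_num : Nat.Prime 5).coprime_iff_not_dvd]

/-- the real part of the weighted sums -/
lemma WS_re (w : ℕ → ℤ) (h0 : w 0 = 0) {e : ℕ} (he : 1 ≤ e) :
    (WS b (fun r => (w r : ℂ)) e).re / J0 =
      ∑ c ∈ (range (5 ^ e)).filter (fun c => c.Coprime (5 ^ e)), (w (c % 5) : ℝ) *
        Lr b ((c : ℚ) / ((5 ^ e : ℕ) : ℚ)) := by
  unfold WS
  rw [Complex.re_sum, sum_div, sum_filter]
  refine sum_congr rfl fun c _ => ?_
  have e1 : ((w (c % 5) : ℂ) * SS b (2 * ((c : ℚ) / ((5 ^ e : ℕ) : ℚ)))).re =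
      (w (c % 5) : ℝ) * (SS b (2 * ((c : ℚ) / ((5 ^ e : ℕ) : ℚ)))).re := by
    have : (w (c % 5) : ℂ) = (((w (c % 5) : ℤ) : ℝ) : ℂ) := by push_cast; rfl
    rw [this, Complex.re_ofReal_mul]
  rw [e1]
  split_ifs with hc
  · unfold Lr
    ring
  · rw [cop_iff he, not_not] at hc
    have : c % 5 = 0 := Nat.mod_eq_zero_of_dvd hc
    rw [this, h0]
    simp

/-- **the values of the modular symbols** -/
theorem exists_l (h : Bp b) {e : ℕ} (he : 1 ≤ e) : ∃ l : ℕ → ℤ, ∃ c : ℤ, Odd c ∧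
    (∀ a : ℕ, ¬ 5 ∣ a → lam (ED b) a ((5 ^ e : ℕ) : ℤ) = l a) ∧
    (∀ a a' : ℕ, ¬ 5 ∣ a → ¬ 5 ∣ a' → a + a' = 5 ^ e → l a' = l a) ∧
    ∑ a ∈ (range (5 ^ e)).filter (fun a => a.Coprime (5 ^ e)), l a = 0 ∧
    ∑ a ∈ (range (5 ^ e)).filter (fun a => a.Coprime (5 ^ e)), jacobiSym a 5 * l a = 4 * c := by
  obtain ⟨ε, hε, hl⟩ := lam_eq h
  have h1 : ∀ a : ℕ, ∃ k : ℤ, ¬ 5 ∣ a → Lr b ((a : ℚ) / ((5 ^ e : ℕ) : ℚ)) = 2 * k := by
    intro a
    by_cases ha : 5 ∣ a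
    · exact ⟨0, fun h => absurd ha h⟩
    · obtain ⟨k, hk⟩ := Lr_even h he ha
      exact ⟨k, fun _ => hk⟩
  choose k hk using h1
  have hM : ((5 ^ e : ℕ) : ℚ) ≠ 0 := by positivity
  have hs : ∀ w : ℕ → ℤ, w 0 = 0 → (WS b (fun r => (w r : ℂ)) e).re / J0 =
      ((2 * ∑ c ∈ (range (5 ^ e)).filter (fun c => c.Coprime (5 ^ e)), w (c % 5) * k c : ℤ) : ℝ) := by
    intro w h0
    rw [WS_re w h0 he, Int.cast_mul, Int.cast_sum, mul_sum]
    refine sum_congr rfl fun c hc => ?_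
    rw [hk c ((cop_iff he).1 (mem_filter.1 hc).2)]
    push_cast
    ring
  have hsymm : ∀ a a' : ℕ, ¬ 5 ∣ a → ¬ 5 ∣ a' → a + a' = 5 ^ e → k a' = k a := by
    intro a a' ha ha' haa
    have h2 : Lr b ((a' : ℚ) / ((5 ^ e : ℕ) : ℚ)) = Lr b ((a : ℚ) / ((5 ^ e : ℕ) : ℚ)) := by
      have e1 : ((a' : ℚ) / ((5 ^ e : ℕ) : ℚ)) = -((a : ℚ) / ((5 ^ e : ℕ) : ℚ)) + 1 := by
        have : (a : ℚ) + a' = ((5 ^ e : ℕ) : ℚ) := by exact_mod_cast haa
        field_simp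
        linarith
      rw [e1, Lr_add, Lr_neg h]
    rw [hk a ha, hk a' ha'] at h2
    have : (k a' : ℝ) = k a := by linarith
    exact_mod_cast this
  have hε0 : ε * ε = 1 := by rcases hε with h | h <;> rw [h] <;> norm_num
  -- the total sum
  have ht : ∑ a ∈ (range (5 ^ e)).filter (fun a => a.Coprime (5 ^ e)), k a = 0 := by
    have h2 := hs (fun r => if r = 0 then 0 else 1) (by simp)
    have h3 : (fun r : ℕ => (((if r = 0 then 0 else 1 : ℤ)) : ℂ)) =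
        fun r : ℕ => if r = 0 then (0 : ℂ) else 1 := by
      ext r
      split_ifs <;> simp
    rw [h3, WS_one h _ he, WS_triv h, Complex.zero_re, zero_div] at h2
    have h4 : ∑ c ∈ (range (5 ^ e)).filter (fun c => c.Coprime (5 ^ e)),
        (if c % 5 = 0 then (0 : ℤ) else 1) * k c =
        ∑ c ∈ (range (5 ^ e)).filter (fun c => c.Coprime (5 ^ e)), k c := by
      refine sum_congr rfl fun c hc => ?_
      rw [mem_filter, cop_iff he] at hc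
      rw [if_neg (fun h => hc.2 (Nat.dvd_of_mod_eq_zero h)), one_mul]
    rw [h4] at h2
    have h5 : (2 * ∑ c ∈ (range (5 ^ e)).filter (fun c => c.Coprime (5 ^ e)), k c : ℤ) = 0 := by
      exact_mod_cast h2.symm
    omega
  -- the twisted sum
  have hx : ∃ c : ℤ, Odd c ∧ ∑ a ∈ (range (5 ^ e)).filter (fun a => a.Coprime (5 ^ e)),
      jacobiSym a 5 * k a = 4 * c := by
    obtain ⟨c, hc, h2⟩ := WS_odd h he
    have h3 := hs (fun r => jacobiSym r 5) (by norm_num)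
    rw [h2] at h3
    have h4 : ∑ c ∈ (range (5 ^ e)).filter (fun c => c.Coprime (5 ^ e)),
        jacobiSym ((c % 5 : ℕ) : ℤ) 5 * k c =
        ∑ c ∈ (range (5 ^ e)).filter (fun c => c.Coprime (5 ^ e)), jacobiSym c 5 * k c := by
      refine sum_congr rfl fun c hc => ?_
      rw [Int.natCast_mod]
      have := jacobiSym.mod_left (c : ℤ) 5
      rw [this]
    rw [h4] at h3
    refine ⟨c, hc, ?_⟩
    have h5 : (8 * c : ℤ) = 2 * ∑ c ∈ (range (5 ^ e)).filter (fun c => c.Coprime (5 ^ e)),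
        jacobiSym c 5 * k c := by exact_mod_cast h3
    linarith
  obtain ⟨c, hc, hcx⟩ := hx
  refine ⟨fun a => ε * k a, ε * c, ?_, ?_, ?_, ?_, ?_⟩
  · rcases hε with h | h
    · rw [h, one_mul]; exact hc
    · rw [h, neg_one_mul]; exact hc.neg
  · intro a ha
    rw [hl]
    have e1 : ((a : ℤ) : ℚ) / (((5 ^ e : ℕ) : ℤ) : ℚ) = (a : ℚ) / ((5 ^ e : ℕ) : ℚ) := by
      push_cast; rfl
    rw [e1, hk a ha]
    push_cast
    ring
  · intro a a' ha ha' haa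
    show ε * k a' = ε * k a
    rw [hsymm a a' ha ha' haa]
  · rw [← mul_sum, ht, mul_zero]
  · have : ∑ a ∈ (range (5 ^ e)).filter (fun a => a.Coprime (5 ^ e)), jacobiSym a 5 * (ε * k a) =
        ε * ∑ a ∈ (range (5 ^ e)).filter (fun a => a.Coprime (5 ^ e)), jacobiSym a 5 * k a := by
      rw [mul_sum]
      refine sum_congr rfl fun a _ => ?_
      ring
    rw [this, hcx]
    ring

section
variable {e : ℕ}

lemma five_dvd (he : 1 ≤ e) : 5 ∣ 5 ^ e := dvd_pow_self 5 (by omega)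

lemma two_lt (he : 1 ≤ e) : 2 < 5 ^ e := by
  have := Nat.le_of_dvd (by positivity) (five_dvd he)
  omega

/-- the subring is the ring of integers -/
theorem RM_eq {l : ℕ → ℤ} (he : 1 ≤ e)
    (hl : ∀ a : ℕ, ¬ 5 ∣ a → lam (ED b) a ((5 ^ e : ℕ) : ℤ) = l a) :
    RM (ED b) (5 ^ e) = (Int.castRingHom ℚ).range := by
  haveI : NeZero (5 ^ e) := ⟨by positivity⟩
  apply le_antisymm
  · unfold RM
    rw [Subring.closure_le]
    rintro q ⟨a, ha⟩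
    rw [hl _ (unit_not_dvd (five_dvd he) a)] at ha
    refine ⟨l (a : ZMod (5 ^ e)).val, ?_⟩
    have : (q : ℂ) = (((l (a : ZMod (5 ^ e)).val : ℤ) : ℚ) : ℂ) := by
      rw [ha]
      push_cast
      rfl
    exact (Rat.cast_injective this).symm
  · rintro q ⟨n, rfl⟩
    exact intCast_mem _ n

theorem l_out {l : ℕ → ℤ} (he : 1 ≤ e)
    (hs : ∀ a a' : ℕ, ¬ 5 ∣ a → ¬ 5 ∣ a' → a + a' = 5 ^ e → l a' = l a)
    {a a' : (ZMod (5 ^ e))ˣ} (h : (QuotientGroup.mk a : GM (5 ^ e)) = QuotientGroup.mk a') :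
    l (a : ZMod (5 ^ e)).val = l (a' : ZMod (5 ^ e)).val := by
  haveI : NeZero (5 ^ e) := ⟨by positivity⟩
  have h2 := QuotientGroup.eq.1 h
  obtain ⟨k, hk⟩ := Subgroup.mem_zpowers_iff.1 h2
  have h3 : a⁻¹ * a' = 1 ∨ a⁻¹ * a' = -1 := by
    rcases Int.even_or_odd k with ⟨m, rfl⟩ | ⟨m, rfl⟩
    · left
      rw [← hk, ← two_mul, zpow_mul]
      simp
    · right
      rw [← hk, zpow_add, zpow_mul, zpow_one]
      simp
  rcases h3 with h3 | h3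
  · rw [inv_mul_eq_one] at h3
    rw [h3]
  · have h4 : a' = -a := by
      rw [inv_mul_eq_iff_eq_mul] at h3
      rw [h3, mul_neg, mul_one]
    have hlt : 1 < 5 ^ e := by have := two_lt he; omega
    haveI : Fact (1 < 5 ^ e) := ⟨hlt⟩
    have h5 : (a' : ZMod (5 ^ e)).val = 5 ^ e - (a : ZMod (5 ^ e)).val := by
      rw [h4, Units.val_neg]
      haveI : NeZero (a : ZMod (5 ^ e)) := ⟨a.ne_zero⟩
      exact ZMod.val_neg_of_ne_zero _
    have h6 := ZMod.val_lt (a : ZMod (5 ^ e))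
    exact (hs _ _ (unit_not_dvd (five_dvd he) a) (unit_not_dvd (five_dvd he) a') (by
      rw [h5]; omega)).symm

/-- the Mazur-Tate element exists -/
theorem exists_theta {l : ℕ → ℤ} (he : 1 ≤ e)
    (hl : ∀ a : ℕ, ¬ 5 ∣ a → lam (ED b) a ((5 ^ e : ℕ) : ℤ) = l a)
    (hs : ∀ a a' : ℕ, ¬ 5 ∣ a → ¬ 5 ∣ a' → a + a' = 5 ^ e → l a' = l a) :
    ∃ θ : MonoidAlgebra (RM (ED b) (5 ^ e)) (GM (5 ^ e)), IsTheta (ED b) (5 ^ e) θ := by
  haveI : NeZero (5 ^ e) := ⟨by positivity⟩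
  have hmem : ∀ n : ℤ, (n : ℚ) ∈ RM (ED b) (5 ^ e) := fun n => by
    rw [RM_eq he hl]
    exact ⟨n, rfl⟩
  refine ⟨MonoidAlgebra.ofCoeff (Finsupp.equivFunOnFinite.symm fun g : GM (5 ^ e) =>
    ⟨((l ((Quotient.out g : (ZMod (5 ^ e))ˣ) : ZMod (5 ^ e)).val : ℤ) : ℚ), hmem _⟩), ?_⟩
  intro a
  rw [hl _ (unit_not_dvd (five_dvd he) a)]
  change ((((l ((Quotient.out (QuotientGroup.mk a : GM (5 ^ e)) : (ZMod (5 ^ e))ˣ) :
    ZMod (5 ^ e)).val : ℤ)) : ℚ) : ℂ) = _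
  have h1 : (QuotientGroup.mk (Quotient.out (QuotientGroup.mk a : GM (5 ^ e))) : GM (5 ^ e)) =
      QuotientGroup.mk a := Quotient.out_eq _
  rw [l_out he hs h1]
  push_cast
  rfl

/-- **the order of vanishing is one** -/
theorem order_abs {l : ℕ → ℤ} (he : 1 ≤ e) {c : ℤ} (hc : Odd c)
    (ht : ∑ a ∈ (range (5 ^ e)).filter (fun a => a.Coprime (5 ^ e)), l a = 0)
    (hx : ∑ a ∈ (range (5 ^ e)).filter (fun a => a.Coprime (5 ^ e)), jacobiSym a 5 * l a = 4 * c)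
    (R : Subring ℚ) (hRi : ∀ x ∈ R, ∃ n : ℤ, x = n)
    (θ : MonoidAlgebra R (GM (5 ^ e))) (hθ : ∀ a : (ZMod (5 ^ e))ˣ,
      (((θ.coeff (QuotientGroup.mk a) : R) : ℚ) : ℂ) = l (a : ZMod (5 ^ e)).val) :
    θ ∈ aug R (GM (5 ^ e)) ∧ θ ∉ aug R (GM (5 ^ e)) ^ 2 := by
  haveI : NeZero (5 ^ e) := ⟨by positivity⟩
  haveI : Fintype (GM (5 ^ e)) := Fintype.ofFinite _
  have h5 := five_dvd he
  have hinj : ∀ x y : R, ((x : ℚ) : ℂ) = ((y : ℚ) : ℂ) → x = y := by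
    intro x y h
    exact Subtype.ext (Rat.cast_injective h)
  have hcast : ∀ φ : GM (5 ^ e) →* R, (((MonoidAlgebra.lift R R (GM (5 ^ e)) φ θ : R) : ℚ) : ℂ) =
      ∑ g : GM (5 ^ e), (((θ.coeff g : R) : ℚ) : ℂ) * (((φ g : R) : ℚ) : ℂ) := by
    intro φ
    have h1 := lift_sum R φ θ
    have h2 : ((MonoidAlgebra.lift R R (GM (5 ^ e)) φ θ : R) : ℚ) =
        ∑ g : GM (5 ^ e), ((θ.coeff g : R) : ℚ) * ((φ g : R) : ℚ) := by
      refine (congrArg (fun x : R => (x : ℚ)) h1).trans ?_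
      push_cast
      rfl
    rw [h2]
    push_cast
    rfl
  constructor
  · show MonoidAlgebra.lift R R (GM (5 ^ e)) (1 : GM (5 ^ e) →* R) θ = 0
    apply hinj
    rw [hcast]
    have h1 := sum_units (two_lt he) (fun g : GM (5 ^ e) => (((θ.coeff g : R) : ℚ) : ℂ))
    have h2 : ∑ a : (ZMod (5 ^ e))ˣ, (((θ.coeff (QuotientGroup.mk a) : R) : ℚ) : ℂ) =
        ∑ a : (ZMod (5 ^ e))ˣ, ((l (a : ZMod (5 ^ e)).val : ℤ) : ℂ) := by
      refine sum_congr rfl fun a _ => ?_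
      rw [hθ a]
    rw [h2, sum_units_range (fun a => ((l a : ℤ) : ℂ))] at h1
    have h3 : ∑ c ∈ (range (5 ^ e)).filter (fun c => c.Coprime (5 ^ e)), ((l c : ℤ) : ℂ) = 0 := by
      exact_mod_cast ht
    rw [h3] at h1
    have h4 : ∑ g : GM (5 ^ e), (((θ.coeff g : R) : ℚ) : ℂ) = 0 := by linear_combination -h1 / 2
    have h6 : ∑ g : GM (5 ^ e), (((θ.coeff g : R) : ℚ) : ℂ) *
        ((((1 : GM (5 ^ e) →* R) g : R) : ℚ) : ℂ) =
        ∑ g : GM (5 ^ e), (((θ.coeff g : R) : ℚ) : ℂ) := by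
      refine sum_congr rfl fun g _ => ?_
      simp
    rw [h6, h4]
    simp
  · intro hm
    obtain ⟨r, hr⟩ := four_dvd_lift R (chiR R (5 ^ e) h5) (fun g => by
      rw [chiR_apply]
      rcases chiG_pm h5 g with h | h
      · left; rw [h]; simp
      · right; rw [h]; simp) θ hm
    obtain ⟨n, hn⟩ := hRi (r : ℚ) r.2
    have h1 := hcast (chiR R (5 ^ e) h5)
    have h2 : (((MonoidAlgebra.lift R R (GM (5 ^ e)) (chiR R (5 ^ e) h5) θ : R) : ℚ) : ℂ) = 4 * n := by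
      have h3 : ((MonoidAlgebra.lift R R (GM (5 ^ e)) (chiR R (5 ^ e) h5) θ : R) : ℚ) = 4 * n := by
        refine (congrArg (fun x : R => (x : ℚ)) hr).trans ?_
        have e1 : ((2 ^ 2 * r : R) : ℚ) = (2 : ℚ) ^ 2 * (r : ℚ) := rfl
        refine e1.trans ?_
        rw [hn]
        norm_num
      rw [h3]
      push_cast
      rfl
    rw [h2] at h1
    have h3 := sum_units (two_lt he) (fun g : GM (5 ^ e) => (((θ.coeff g : R) : ℚ) : ℂ) *
      (((chiR R (5 ^ e) h5 g : R) : ℚ) : ℂ))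
    rw [← h1] at h3
    have h4 : ∑ a : (ZMod (5 ^ e))ˣ, (((θ.coeff (QuotientGroup.mk a) : R) : ℚ) : ℂ) *
        (((chiR R (5 ^ e) h5 (QuotientGroup.mk a) : R) : ℚ) : ℂ) =
        ∑ a : (ZMod (5 ^ e))ˣ, ((jacobiSym (a : ZMod (5 ^ e)).val 5 * l (a : ZMod (5 ^ e)).val : ℤ) : ℂ) := by
      refine sum_congr rfl fun a _ => ?_
      rw [hθ a, chiR_apply, chiG_mk]
      push_cast
      ring
    rw [h4, sum_units_range (fun a => ((jacobiSym a 5 * l a : ℤ) : ℂ))] at h3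
    have h6 : ∑ c ∈ (range (5 ^ e)).filter (fun c => c.Coprime (5 ^ e)),
        ((jacobiSym c 5 * l c : ℤ) : ℂ) = ((4 * c : ℤ) : ℂ) := by
      rw [← hx]
      push_cast
      rfl
    rw [h6] at h3
    have h7 : (4 * c : ℤ) = 2 * (4 * n) := by exact_mod_cast h3
    obtain ⟨t, ht'⟩ := hc
    omega

theorem order_one {l : ℕ → ℤ} (he : 1 ≤ e)
    (hl : ∀ a : ℕ, ¬ 5 ∣ a → lam (ED b) a ((5 ^ e : ℕ) : ℤ) = l a) {c : ℤ} (hc : Odd c)
    (ht : ∑ a ∈ (range (5 ^ e)).filter (fun a => a.Coprime (5 ^ e)), l a = 0)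
    (hx : ∑ a ∈ (range (5 ^ e)).filter (fun a => a.Coprime (5 ^ e)), jacobiSym a 5 * l a = 4 * c)
    (θ : MonoidAlgebra (RM (ED b) (5 ^ e)) (GM (5 ^ e))) (hθ : IsTheta (ED b) (5 ^ e) θ) :
    θ ∈ aug (RM (ED b) (5 ^ e)) (GM (5 ^ e)) ∧ θ ∉ aug (RM (ED b) (5 ^ e)) (GM (5 ^ e)) ^ 2 := by
  haveI : NeZero (5 ^ e) := ⟨by positivity⟩
  refine order_abs he hc ht hx (RM (ED b) (5 ^ e)) ?_ θ ?_
  · intro x h1
    rw [RM_eq he hl] at h1
    obtain ⟨n, hn⟩ := h1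
    exact ⟨n, hn.symm⟩
  · intro a
    rw [hθ a, hl _ (unit_not_dvd (five_dvd he) a)]

end

/-- **everything about the Mazur-Tate elements** -/
theorem main (h : Bp b) {e : ℕ} (he : 1 ≤ e) :
    RM (ED b) (5 ^ e) = (Int.castRingHom ℚ).range ∧
    (∃ θ : MonoidAlgebra (RM (ED b) (5 ^ e)) (GM (5 ^ e)), IsTheta (ED b) (5 ^ e) θ) ∧
    ∀ θ : MonoidAlgebra (RM (ED b) (5 ^ e)) (GM (5 ^ e)), IsTheta (ED b) (5 ^ e) θ →
      θ ∈ aug (RM (ED b) (5 ^ e)) (GM (5 ^ e)) ∧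
      θ ∉ aug (RM (ED b) (5 ^ e)) (GM (5 ^ e)) ^ 2 := by
  obtain ⟨l, c, hc, hl, hs, ht, hx⟩ := exists_l h he
  exact ⟨RM_eq he hl, exists_theta he hl hs, order_one he hl hc ht hx⟩

end Pool.Agent.Z695.MT
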