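import Pool.Agent.Y695.Defs

/-!
# The rational points of the twists of `X_0(20)`
-/

set_option autoImplicit false
set_option linter.all false

open WeierstrassCurve WeierstrassCurve.Affine

namespace Pool.Agent.Z695.MT

open Pool.Agent.Y695 (ED)

/-- the curve over the rational numbers -/
noncomputable abbrev EQ (b : ℤ) : WeierstrassCurve ℚ := (ED b).map (Int.castRingHom ℚ)

variable {b : ℤ}

theorem ha1 : (EQ b).a₁ = 0 := by simp [EQ, ED]
theorem ha2 : (EQ b).a₂ = -11 * b := by simp [EQ, ED]
theorem ha3 : (EQ b).a₃ = 0 := by simp [EQ, ED]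
theorem ha4 : (EQ b).a₄ = -b ^ 2 := by simp [EQ, ED]
theorem ha6 : (EQ b).a₆ = 0 := by simp [EQ, ED]

theorem eqn (x y : ℚ) : (EQ b).toAffine.Equation x y ↔
    y ^ 2 = x ^ 3 - 11 * b * x ^ 2 - b ^ 2 * x := by
  rw [WeierstrassCurve.Affine.equation_iff, ha1, ha2, ha3, ha4, ha6]
  constructor
  · intro h; linear_combination h
  · intro h; linear_combination h

/-- the norm -/
noncomputable abbrev nn (x : ℚ) : ℚ := padicNorm 2 x

theorem nn_mul (x y : ℚ) : nn (x * y) = nn x * nn y := padicNorm.mul x y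

theorem nn_pow (x : ℚ) (n : ℕ) : nn (x ^ n) = nn x ^ n := by
  induction n with
  | zero => simp
  | succ n ih => rw [pow_succ, nn_mul, ih, pow_succ]

theorem nn_neg (x : ℚ) : nn (-x) = nn x := padicNorm.neg x

theorem nn_div (x y : ℚ) : nn (x / y) = nn x / nn y := padicNorm.div x y

theorem nn_nonneg (x : ℚ) : 0 ≤ nn x := padicNorm.nonneg x

theorem nn_two : nn 2 = 1 / 2 := by
  have := padicNorm.padicNorm_p (p := 2) (by norm_num)
  rw [show ((2 : ℕ) : ℚ) = 2 by norm_num] at this
  show padicNorm 2 (2 : ℚ) = _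
  rw [this]
  norm_num

theorem nn_four : nn 4 = 1 / 4 := by
  rw [show (4 : ℚ) = 2 ^ 2 by norm_num, nn_pow, nn_two]
  norm_num

theorem nn_odd {n : ℤ} (h : Odd n) : nn n = 1 := by
  show padicNorm 2 (n : ℚ) = 1
  rw [padicNorm.int_eq_one_iff]
  intro h2
  rw [← Int.not_even_iff_odd, even_iff_two_dvd] at h
  exact h (by exact_mod_cast h2)

theorem nn_add_of_lt {x y : ℚ} (h : nn x < nn y) : nn (x + y) = nn y := by
  show padicNorm 2 (x + y) = _
  rw [padicNorm.add_eq_max_of_ne h.ne, max_eq_right h.le]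

theorem nn_add_le {x y c : ℚ} (hx : nn x ≤ c) (hy : nn y ≤ c) : nn (x + y) ≤ c :=
  (padicNorm.nonarchimedean (p := 2)).trans (max_le hx hy)

/-- the norm is at most one half if it is less than one -/
theorem nn_half {x : ℚ} (h : nn x < 1) : nn x ≤ 1 / 2 := by
  by_cases h0 : x = 0
  · rw [h0]
    show padicNorm 2 0 ≤ _
    rw [padicNorm.zero]
    norm_num
  · have h1 : nn x = (2 : ℚ) ^ (-padicValRat 2 x) := by
      have := padicNorm.eq_zpow_of_nonzero (p := 2) h0
      exact_mod_cast this
    rw [h1] at h ⊢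
    have h2 : -padicValRat 2 x < 0 := by
      by_contra h3
      push Not at h3
      have := one_le_zpow₀ (by norm_num : (1 : ℚ) ≤ 2) h3
      linarith
    have h3 : -padicValRat 2 x ≤ -1 := by omega
    refine (zpow_le_zpow_right₀ (by norm_num : (1 : ℚ) ≤ 2) h3).trans ?_
    norm_num

/-- the sum of two units -/
theorem nn_units {x y : ℚ} (hx : nn x = 1) (hy : nn y = 1) : nn (x + y) ≤ 1 / 2 := by
  have key : ∀ z : ℚ, nn z = 1 → ∃ a c : ℤ, Odd a ∧ Odd c ∧ z = a / c := by
    intro z hz
    have hz0 : z ≠ 0 := by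
      rintro rfl
      have : nn 0 = 0 := padicNorm.zero
      rw [this] at hz
      norm_num at hz
    have hd : (z.den : ℚ) ≠ 0 := by exact_mod_cast z.den_nz
    have h1 : z * z.den = z.num := Rat.mul_den_eq_num z
    have h2 : nn z.den = nn z.num := by
      rw [← h1, nn_mul, hz, one_mul]
    have h3 : nn (z.num : ℚ) = 1 ↔ Odd z.num := by
      constructor
      · intro h
        have h4 := (padicNorm.int_eq_one_iff (p := 2) z.num).1 h
        rw [← Int.not_even_iff_odd, even_iff_two_dvd]
        intro h5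
        exact h4 (by exact_mod_cast h5)
      · exact nn_odd
    have h4 : nn (z.den : ℚ) = 1 ↔ Odd (z.den : ℤ) := by
      constructor
      · intro h
        have h4 := (padicNorm.int_eq_one_iff (p := 2) (z.den : ℤ)).1 (by exact_mod_cast h)
        rw [← Int.not_even_iff_odd, even_iff_two_dvd]
        intro h5
        exact h4 (by exact_mod_cast h5)
      · intro h
        have := nn_odd h
        exact_mod_cast this
    have h5 : Odd z.num ∨ Odd (z.den : ℤ) := by
      by_contra hcon
      push Not at hcon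
      rw [Int.not_odd_iff_even, Int.not_odd_iff_even] at hcon
      have h6 := z.reduced
      have h7 : 2 ∣ z.num.natAbs := by
        have := hcon.1.two_dvd
        exact Int.natAbs_dvd_natAbs.2 this |>.trans (by simp) 
      have h8 : 2 ∣ z.den := by
        have := hcon.2.two_dvd
        exact_mod_cast this
      have h9 := Nat.dvd_gcd h7 h8
      rw [h6] at h9
      norm_num at h9
    refine ⟨z.num, z.den, ?_, ?_, ?_⟩
    · rcases h5 with h5 | h5
      · exact h5
      · rw [← h3, ← h2]; exact h4.2 h5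
    · rcases h5 with h5 | h5
      · rw [← h4, h2]; exact h3.2 h5
      · exact h5
    · have := Rat.num_div_den z
      rw [Int.cast_natCast]
      exact this.symm
  obtain ⟨a, c, ha, hc, rfl⟩ := key x hx
  obtain ⟨a', c', ha', hc', rfl⟩ := key y hy
  have hc0 : (c : ℚ) ≠ 0 := by
    have : c ≠ 0 := by rintro rfl; exact absurd hc (by decide)
    exact_mod_cast this
  have hc0' : (c' : ℚ) ≠ 0 := by
    have : c' ≠ 0 := by rintro rfl; exact absurd hc' (by decide)
    exact_mod_cast this
  have h1 : (a / c + a' / c' : ℚ) = ((a * c' + a' * c : ℤ) : ℚ) / ((c * c' : ℤ) : ℚ) := by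
    push_cast
    field_simp
  rw [h1, nn_div, nn_odd (hc.mul hc'), div_one]
  obtain ⟨k, hk⟩ : Even (a * c' + a' * c) := (ha.mul hc').add_odd (ha'.mul hc)
  rw [hk, ← two_mul, Int.cast_mul, nn_mul]
  have h2 : nn ((k : ℤ) : ℚ) ≤ 1 := padicNorm.of_int (p := 2) k
  have h3 : nn ((2 : ℤ) : ℚ) = 1 / 2 := by
    rw [Int.cast_ofNat]
    exact nn_two
  rw [h3]
  linarith

end Pool.Agent.Z695.MT
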