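import Pool.Agent.Z695.MT.G

/-!
# The rational points of the twists of `X_0(20)`: the criterion for the rank
-/

set_option autoImplicit false
set_option linter.all false

open WeierstrassCurve WeierstrassCurve.Affine

namespace Pool.Agent.Z695.MT

open Pool.Agent.Y695 (ED)

variable {b : ℤ}

lemma nn_three : nn 3 = 1 := by
  have := nn_odd (n := 3) (by decide)
  exact_mod_cast this

lemma nn_eleven : nn 11 = 1 := by
  have := nn_odd (n := 11) (by decide)
  exact_mod_cast this

/-- **three times a point with `x` a unit** -/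
theorem triple (hb : Odd b) (hb0 : 0 < b) (x y : ℚ) (h : (EQ b).toAffine.Nonsingular x y)
    (hx : nn x = 1) : ∃ (x' y' : ℚ) (h' : (EQ b).toAffine.Nonsingular x' y'),
      (3 : ℕ) • (Point.some x y h : (EQ b).toAffine.Point) = Point.some x' y' h' ∧
      nn x' ≠ 1 := by
  have he := (eqn x y).1 h.1
  have hb1 : nn (b : ℚ) = 1 := nn_odd hb
  have hbQ : (0 : ℚ) < b := by exact_mod_cast hb0
  have h00 : nn 0 = 0 := padicNorm.zero
  have h1 : nn (x ^ 2 - 11 * b * x - b ^ 2 : ℚ) = 1 := by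
    rw [show (x ^ 2 - 11 * b * x - b ^ 2 : ℚ) = (x ^ 2 + -(b : ℚ) ^ 2) + -(11 * b * x) by ring,
      nn_add_of_lt, nn_neg, nn_mul, nn_mul, nn_eleven, hb1, hx, one_mul, one_mul]
    rw [nn_neg, nn_mul, nn_mul, nn_eleven, hb1, hx, one_mul, one_mul]
    have := nn_units (x := x ^ 2) (y := -(b : ℚ) ^ 2) (by rw [nn_pow, hx, one_pow])
      (by rw [nn_neg, nn_pow, hb1, one_pow])
    linarith
  have hN : nn y ^ 2 = 1 := by
    rw [← nn_pow, he, show x ^ 3 - 11 * b * x ^ 2 - b ^ 2 * x =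
      x * (x ^ 2 - 11 * b * x - b ^ 2 : ℚ) by ring, nn_mul, h1, mul_one, hx]
  have hy1 : nn y = 1 := by
    have := nn_nonneg y
    nlinarith
  have hy0 : y ≠ 0 := by
    intro h0
    rw [h0, h00] at hy1
    norm_num at hy1
  obtain ⟨x2, y2, h2, e1, -, e2, e3⟩ := dbl_x hb x y h hy0
  set m : ℚ := (3 * x ^ 2 - 22 * b * x - b ^ 2) / (2 * y) with hm
  have hxb : nn (x - b) ≤ 1 / 2 := by
    rw [sub_eq_add_neg]
    exact nn_units hx (by rw [nn_neg, hb1])
  have hxb' : nn (x + b) ≤ 1 / 2 := nn_units hx hb1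
  have hnum : nn (3 * x ^ 2 - 22 * b * x - b ^ 2 : ℚ) ≤ 1 / 4 := by
    rw [show (3 * x ^ 2 - 22 * b * x - b ^ 2 : ℚ) = 3 * ((x - b) * (x + b)) +
      2 * (b ^ 2 + -(11 * b * x)) by ring]
    refine nn_add_le ?_ ?_
    · rw [nn_mul, nn_mul, nn_three, one_mul]
      nlinarith [nn_nonneg (x - b), nn_nonneg (x + b)]
    · rw [nn_mul, nn_two]
      have := nn_units (x := (b : ℚ) ^ 2) (y := -(11 * b * x)) (by rw [nn_pow, hb1, one_pow])
        (by rw [nn_neg, nn_mul, nn_mul, nn_eleven, hb1, hx, one_mul, one_mul])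
      linarith
  have hm2 : nn m ≤ 1 / 2 := by
    rw [hm, nn_div, nn_mul, nn_two, hy1, mul_one, div_le_iff₀ (by norm_num)]
    linarith
  -- the difference
  have hd0 : x2 ≠ x := by
    intro h3
    rw [h3] at e2
    have h4 : (3 * x + b) * ((x - b) ^ 3 - 12 * b * x ^ 2) = 0 := by
      have h5 : m * (2 * y) = 3 * x ^ 2 - 22 * b * x - b ^ 2 := by
        rw [hm, div_mul_cancel₀ _ (by positivity)]
      have h6 : m ^ 2 = 3 * x - 11 * b := by linarith
      have h7 : (3 * x ^ 2 - 22 * b * x - b ^ 2) ^ 2 = 4 * y ^ 2 * (3 * x - 11 * b) := by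
        rw [← h5, ← h6]; ring
      rw [he] at h7
      linear_combination -h7
    rcases mul_eq_zero.1 h4 with h5 | h5
    · have h6 : x = -b / 3 := by linarith
      have h7 : 27 * y ^ 2 = -25 * (b : ℚ) ^ 3 := by
        rw [he, h6]; ring
      have h8 : 0 < (b : ℚ) ^ 3 := by positivity
      nlinarith [sq_nonneg y]
    · have h6 : (x - b) ^ 3 = 4 * (3 * b * x ^ 2) := by linarith
      have h7 := congrArg nn h6
      rw [nn_pow, nn_mul, nn_mul, nn_mul, nn_pow, nn_four, nn_three, hb1, hx] at h7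
      have h8 := nn_nonneg (x - b)
      have h9 : nn (x - b) ^ 3 ≤ (1 / 2) ^ 3 := pow_le_pow_left₀ h8 hxb 3
      rw [h7] at h9
      norm_num at h9
  have hd0' : x2 - x ≠ 0 := sub_ne_zero.2 hd0
  have hd : nn (x2 - x) ≤ 1 / 2 := by
    rw [show x2 - x = m ^ 2 + (11 * b + -(3 * x)) by rw [e2]; ring]
    refine nn_add_le ?_ ?_
    · rw [nn_pow]
      have := nn_nonneg m
      nlinarith
    · refine nn_units (by rw [nn_mul, nn_eleven, hb1, one_mul]) ?_
      rw [nn_neg, nn_mul, nn_three, hx, one_mul]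
  have hdpos : 0 < nn (x2 - x) := by
    refine lt_of_le_of_ne (nn_nonneg _) (fun h => hd0' ?_)
    exact padicNorm.zero_of_padicNorm_eq_zero h.symm
  -- the slope
  set L : ℚ := (y2 - y) / (x2 - x) with hL
  have hL1 : L = -m + -(2 * y / (x2 - x)) := by
    rw [hL, e3]
    field_simp
    ring
  have hq : 1 ≤ nn (2 * y / (x2 - x)) := by
    rw [nn_div, nn_mul, nn_two, hy1, mul_one, le_div_iff₀ hdpos]
    linarith
  have hLn : nn L = nn (2 * y / (x2 - x)) := by
    rw [hL1, nn_add_of_lt, nn_neg]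
    rw [nn_neg, nn_neg]
    linarith
  have hs : (EQ b).toAffine.slope x2 x y2 y = L := by
    rw [slope_of_X_ne hd0]
  have hX : (EQ b).toAffine.addX x2 x ((EQ b).toAffine.slope x2 x y2 y) =
      L ^ 2 + (-(2 * x + (x2 - x)) + 11 * b) := by
    rw [hs, addX, ha1, ha2]
    ring
  have hu : nn (-(2 * x + (x2 - x)) + 11 * b) = 1 := by
    rw [nn_add_of_lt, nn_mul, nn_eleven, hb1, one_mul]
    rw [nn_neg, nn_mul, nn_eleven, hb1, one_mul]
    have : nn (2 * x + (x2 - x)) ≤ 1 / 2 := nn_add_le (by rw [nn_mul, nn_two, hx, mul_one]) hd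
    linarith
  have e4 : (3 : ℕ) • (Point.some x y h : (EQ b).toAffine.Point) =
      Point.some x2 y2 h2 + Point.some x y h := by
    rw [show (3 : ℕ) = 2 + 1 by norm_num, succ_nsmul, two_nsmul, e1]
  refine ⟨_, _, _, e4.trans (Point.add_of_X_ne hd0), ?_⟩
  rw [hX]
  rcases (hLn ▸ hq : 1 ≤ nn L).lt_or_eq with h5 | h5
  · rw [add_comm, nn_add_of_lt, nn_pow]
    · have : 1 < nn L ^ 2 := by nlinarith
      exact this.ne'
    · rw [hu, nn_pow]
      nlinarith
  · have := nn_units (x := L ^ 2) (y := -(2 * x + (x2 - x)) + 11 * b)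
      (by rw [nn_pow, ← h5, one_pow]) hu
    intro h6
    rw [h6] at this
    norm_num at this

/-- points with `x` a unit -/
theorem inf_unit (hb : Odd b) (hb0 : 0 < b) (x y : ℚ) (h : (EQ b).toAffine.Nonsingular x y)
    (hx : nn x = 1) : ¬ IsOfFinAddOrder (Point.some x y h : (EQ b).toAffine.Point) := by
  intro hf
  obtain ⟨x3, y3, h3, e3, n3⟩ := triple hb hb0 x y h hx
  have hf3 : IsOfFinAddOrder (Point.some x3 y3 h3 : (EQ b).toAffine.Point) := e3 ▸ hf.nsmul
  have he := (eqn x y).1 h.1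
  have he3 := (eqn x3 y3).1 h3.1
  have hx0 : x ≠ 0 := by
    rintro rfl
    have h00 : nn 0 = 0 := padicNorm.zero
    rw [h00] at hx
    norm_num at hx
  by_cases h30 : x3 = 0
  · have hy3 : y3 = 0 := by
      rw [h30] at he3
      have : y3 ^ 2 = 0 := by rw [he3]; ring
      exact pow_eq_zero_iff (by norm_num) |>.1 this
    -- the point of order two
    have hT : (Point.some x3 y3 h3 : (EQ b).toAffine.Point) + Point.some x3 y3 h3 = 0 := by
      apply Point.add_self_of_Y_eq
      rw [negY, ha1, ha3, hy3]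
      ring
    have hne : x ≠ x3 := by rw [h30]; exact hx0
    have hsum := Point.add_of_X_ne (h₁ := h) (h₂ := h3) hne
    have hxq : (EQ b).toAffine.addX x x3 ((EQ b).toAffine.slope x x3 y y3) = -b ^ 2 / x := by
      rw [slope_of_X_ne hne, addX, ha1, ha2, h30, hy3]
      field_simp
      linear_combination x * he
    have hnq : nn ((EQ b).toAffine.addX x x3 ((EQ b).toAffine.slope x x3 y y3)) = 1 := by
      rw [hxq, nn_div, hx, div_one, nn_neg, nn_pow, nn_odd hb, one_pow]
    obtain ⟨x4, y4, h4, e4, -⟩ := triple hb hb0 _ _ (nonsingular_add h h3 fun hxy => hne hxy.1) hnq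
    have e5 : (3 : ℕ) • ((Point.some x y h : (EQ b).toAffine.Point) + Point.some x3 y3 h3) = 0 := by
      rw [nsmul_add, e3]
      rw [show (3 : ℕ) = 1 + 1 + 1 by norm_num, add_nsmul, add_nsmul, one_nsmul]
      rw [hT, zero_add, hT]
    rw [hsum, e4] at e5
    exact Point.some_ne_zero _ e5
  · rcases lt_trichotomy (nn x3) 1 with h5 | h5 | h5
    · exact inf_small hb x3 y3 h3 h30 h5 hf3
    · exact n3 h5
    · exact inf_big hb _ x3 y3 h3 rfl h5 hf3

/-- **every rational point outside of the points of order two has infinite order** -/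
theorem inf_all (hb : Odd b) (hb0 : 0 < b) (x y : ℚ) (h : (EQ b).toAffine.Nonsingular x y)
    (hy : y ≠ 0) : ¬ IsOfFinAddOrder (Point.some x y h : (EQ b).toAffine.Point) := by
  have he := (eqn x y).1 h.1
  have hx0 : x ≠ 0 := by
    rintro rfl
    apply hy
    have : y ^ 2 = 0 := by rw [he]; ring
    exact pow_eq_zero_iff (by norm_num) |>.1 this
  rcases lt_trichotomy (nn x) 1 with h5 | h5 | h5
  · exact inf_small hb x y h hx0 h5
  · exact inf_unit hb hb0 x y h h5
  · exact inf_big hb _ x y h rfl h5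

/-- **the criterion** -/
theorem rank_iff (hb : Odd b) (hb0 : 0 < b) :
    1 ≤ Module.rank ℤ ((ED b).map (Int.castRingHom ℚ)).toAffine.Point ↔
      ∃ x y : ℚ, y ≠ 0 ∧ y ^ 2 = x ^ 3 - 11 * b * x ^ 2 - b ^ 2 * x := by
  rw [Cardinal.one_le_iff_ne_zero]
  constructor
  · intro hr
    by_contra hcon
    push Not at hcon
    apply hr
    rw [rank_eq_zero_iff]
    intro P
    rcases P with _ | ⟨x, y, h⟩
    · exact ⟨1, one_ne_zero, by rw [one_smul]; rfl⟩
    · have he := (eqn x y).1 h.1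
      have hy : y = 0 := by
        by_contra hy
        exact hcon x y hy he
      refine ⟨2, two_ne_zero, ?_⟩
      rw [two_smul]
      apply Point.add_self_of_Y_eq
      rw [negY, ha1, ha3, hy]
      ring
  · rintro ⟨x, y, hy, he⟩ hr
    have hne : (EQ b).toAffine.Nonsingular x y := by
      rw [nonsingular_iff']
      refine ⟨(eqn _ _).2 he, Or.inr ?_⟩
      rw [ha1, ha3]
      intro h
      apply hy
      linarith
    rw [rank_eq_zero_iff] at hr
    obtain ⟨a, ha, h0⟩ := hr (Point.some x y hne)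
    exact inf_all hb hb0 x y hne hy (isOfFinAddOrder_iff_zsmul_eq_zero.2 ⟨a, ha, h0⟩)

end Pool.Agent.Z695.MT
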