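import Pool.Agent.Z695.MT.E
import Pool.Agent.Z695.MT.H

/-!
# The vanishing order of the Mazur-Tate elements of the twists of `X_0(20)`: the assembly
-/

set_option autoImplicit false
set_option linter.all false

open Finset

namespace Pool.Agent.Z695.MT

open Pool.Agent.W97.V20 (lam GM RM aug IsTheta IsSplit OrderConjecture A_five)
open Pool.Agent.W97.MT (ap IsGloballyMinimal)
open Pool.Agent.Y695 (ED ch)

/-- The body of `OrderConjecture` (Q1) for one curve `W`: for every finite set `S` of primes of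
split multiplicative reduction and all exponents `e_p ≥ 1`, the Mazur-Tate element lies in
`I^(#S + k)` for all `k ≤ rk W(ℚ)`. -/
def OrderConjectureFor (W : WeierstrassCurve ℤ) : Prop :=
  ∀ (S : Finset ℕ) (e : ℕ → ℕ),
    (∀ p ∈ S, p.Prime ∧ IsSplit W p ∧ 1 ≤ e p) → ∀ M : ℕ, M = ∏ p ∈ S, p ^ e p →
    ∀ θ : MonoidAlgebra (RM W M) (GM M), IsTheta W M θ → ∀ k : ℕ,
      (k : Cardinal) ≤ Module.rank ℤ (W.map (Int.castRingHom ℚ)).toAffine.Point →
      θ ∈ aug (RM W M) (GM M) ^ (S.card + k)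

/-- The Mazur-Tate element `θ_M` of `W` (over the smallest ring `R`) has order of vanishing exactly
one, and `R = ℤ`: the smallest ring is `ℤ`, the element exists, and it lies in the augmentation
ideal `I` but not in `I²`. -/
def OrderOne (W : WeierstrassCurve ℤ) (M : ℕ) : Prop :=
  RM W M = (Int.castRingHom ℚ).range ∧
  (∃ θ : MonoidAlgebra (RM W M) (GM M), IsTheta W M θ) ∧
  ∀ θ : MonoidAlgebra (RM W M) (GM M), IsTheta W M θ →
    θ ∈ aug (RM W M) (GM M) ∧ θ ∉ aug (RM W M) (GM M) ^ 2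

/-- The rank of the group of the rational points is zero. -/
def RankZero (W : WeierstrassCurve ℤ) : Prop :=
  Module.rank ℤ (W.map (Int.castRingHom ℚ)).toAffine.Point = 0

/-- The curve `y² = x³ - 11 b x² - b² x` has a rational point with `y ≠ 0`. -/
def HasPoint (b : ℕ) : Prop :=
  ∃ x y : ℚ, y ≠ 0 ∧ y ^ 2 = x ^ 3 - 11 * b * x ^ 2 - b ^ 2 * x

variable {b : ℕ}

lemma c4_ED (D : ℤ) : (ED D).c₄ = 1984 * D ^ 2 := by
  unfold ED WeierstrassCurve.c₄ WeierstrassCurve.b₂ WeierstrassCurve.b₄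
  ring

lemma Bp.odd (h : Bp b) : Odd b := by rw [Nat.odd_iff]; have := h.mod4; omega

theorem Bp.split (h : Bp b) : IsSplit (ED b) 5 := by
  refine ⟨?_, ?_, ?_⟩
  · rw [Pool.Agent.Y695.disc_ED]
    exact ⟨400 * (b : ℤ) ^ 6, by push_cast; ring⟩
  · rw [c4_ED]
    intro h1
    have h5 : Prime ((5 : ℕ) : ℤ) := Nat.prime_iff_prime_int.1 (by norm_num)
    rcases h5.dvd_or_dvd h1 with h2 | h2
    · norm_num at h2
    · have h3 := h5.dvd_of_dvd_pow h2
      rw [Int.natCast_dvd_natCast] at h3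
      exact h.ne5 ((Nat.prime_dvd_prime_iff_eq (by norm_num) h.prime).1 h3).symm
  · have h1 := Pool.Agent.Y695.ap_twist h.adm (p := 5) (by norm_num)
    rw [h.DD, ch_b] at h1
    rw [h1, A_five]
    have h2 : jacobiSym ((5 : ℕ) : ℤ) b = -1 := by
      have := Pool.Agent.Y695.jac_five h.odd
      rw [h.jac5] at this
      exact_mod_cast this
    rw [h2]
    norm_num

theorem Bp.split_only (h : Bp b) {p : ℕ} (hp : p.Prime) (hs : IsSplit (ED b) p) : p = 5 := by
  obtain ⟨h1, h2, -⟩ := hs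
  rw [Pool.Agent.Y695.disc_ED] at h1
  rw [c4_ED] at h2
  have hpp : Prime (p : ℤ) := Nat.prime_iff_prime_int.1 hp
  rcases hpp.dvd_or_dvd h1 with h3 | h3
  · have h4 : p ∣ 2000 := by exact_mod_cast h3
    have h5 : p ∣ 20 := by
      have h6 : p ∣ 20 ^ 3 := h4.trans (by norm_num)
      exact hp.dvd_of_dvd_pow h6
    have h6 : p ∣ 4 * 5 := by norm_num; exact h5
    rcases (hp.dvd_mul).1 h6 with h7 | h7
    · exfalso
      apply h2
      have h8 : p ∣ 2 := by
        have : p ∣ 2 ^ 2 := by norm_num; exact h7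
        exact hp.dvd_of_dvd_pow this
      have h9 : p = 2 := (Nat.prime_dvd_prime_iff_eq hp (by norm_num)).1 h8
      rw [h9]
      exact ⟨992 * (b : ℤ) ^ 2, by push_cast; ring⟩
    · exact (Nat.prime_dvd_prime_iff_eq hp (by norm_num)).1 h7
  · exfalso
    apply h2
    exact dvd_mul_of_dvd_right (dvd_pow (hpp.dvd_of_dvd_pow h3) (by norm_num)) _

theorem Bp.min (h : Bp b) : IsGloballyMinimal (ED b) := by
  apply Pool.Agent.Y695.min_ED
  rw [Int.squarefree_natCast]
  exact h.prime.squarefree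

lemma mem_pow_zero (R : Type) [CommRing R] {G : Type} [CommGroup G] (x : MonoidAlgebra R G) :
    x ∈ aug R G ^ (0 + 0) := by
  rw [add_zero, pow_zero, Ideal.one_eq_top]
  exact Submodule.mem_top

lemma mem_pow_one (R : Type) [CommRing R] {G : Type} [CommGroup G] {x : MonoidAlgebra R G}
    (h : x ∈ aug R G) : x ∈ aug R G ^ (1 + 0) := by
  rw [add_zero, pow_one]
  exact h

/-- **the criterion for the conjecture** -/
theorem conj_iff (h : Bp b) : OrderConjectureFor (ED b) ↔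
    Module.rank ℤ ((ED b).map (Int.castRingHom ℚ)).toAffine.Point = 0 := by
  constructor
  · intro hc
    by_contra hr
    have hr1 : ((1 : ℕ) : Cardinal) ≤
        Module.rank ℤ ((ED b).map (Int.castRingHom ℚ)).toAffine.Point := by
      rw [Nat.cast_one]
      exact Cardinal.one_le_iff_ne_zero.2 hr
    obtain ⟨-, ⟨θ, hθ⟩, h3⟩ := main h (e := 1) le_rfl
    have h4 := hc {5} (fun _ => 1) (fun p hp => by
      rw [Finset.mem_singleton] at hp
      subst hp
      exact ⟨by norm_num, h.split, le_rfl⟩) (5 ^ 1) (by simp) θ hθ 1 hr1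
    rw [card_singleton] at h4
    exact (h3 θ hθ).2 h4
  · intro hr S e hS M hM θ hθ k hk
    rw [hr] at hk
    have hk0 : k = 0 := by
      have := le_antisymm hk (zero_le)
      exact_mod_cast this
    subst hk0
    have hS5 : ∀ p ∈ S, p = 5 := fun p hp => h.split_only (hS p hp).1 (hS p hp).2.1
    rcases S.eq_empty_or_nonempty with hS0 | hS0
    · subst hS0
      rw [card_empty]
      exact mem_pow_zero _ θ
    · obtain ⟨p, hp⟩ := hS0
      have hS1 : S = {5} := by
        ext q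
        rw [mem_singleton]
        constructor
        · exact hS5 q
        · rintro rfl
          rw [← hS5 p hp]
          exact hp
      subst hS1
      rw [prod_singleton] at hM
      subst hM
      have he : 1 ≤ e 5 := (hS 5 (mem_singleton_self 5)).2.2
      rw [card_singleton]
      exact mem_pow_one _ ((main h he).2.2 θ hθ).1

theorem rank_zero_iff (h : Bp b) :
    Module.rank ℤ ((ED b).map (Int.castRingHom ℚ)).toAffine.Point = 0 ↔
      ¬ ∃ x y : ℚ, y ≠ 0 ∧ y ^ 2 = x ^ 3 - 11 * b * x ^ 2 - b ^ 2 * x := by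
  have hb : Odd (b : ℤ) := by exact_mod_cast h.odd
  have h1 := rank_iff (b := (b : ℤ)) hb (by exact_mod_cast h.prime.pos)
  rw [Cardinal.one_le_iff_ne_zero] at h1
  push_cast at h1
  rw [← h1, not_not]

/-- Thirteen primes congruent to `13` or `17` modulo `20`. -/
def small : List ℕ := [13, 17, 37, 53, 73, 97, 157, 193, 277, 397, 557, 577, 613]

theorem small_point : ∀ b ∈ small, Bp b ∧ ∃ x y : ℚ, y ≠ 0 ∧
    y ^ 2 = x ^ 3 - 11 * b * x ^ 2 - b ^ 2 * x := by
  intro b hb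
  unfold small at hb
  simp only [List.mem_cons, List.not_mem_nil, or_false] at hb
  rcases hb with rfl | rfl | rfl | rfl | rfl | rfl | rfl | rfl | rfl | rfl | rfl | rfl | rfl
  · exact ⟨⟨by norm_num, by norm_num⟩, -1 ^ 2 / 1 ^ 2, 1 * 5 / 1 ^ 3, by norm_num, by norm_num⟩
  · exact ⟨⟨by norm_num, by norm_num⟩, -12 ^ 2 / 13 ^ 2, 12 * 1919 / 13 ^ 3, by norm_num,
      by norm_num⟩
  · exact ⟨⟨by norm_num, by norm_num⟩, -1 ^ 2 / 1 ^ 2, 1 * 31 / 1 ^ 3, by norm_num, by norm_num⟩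
  · exact ⟨⟨by norm_num, by norm_num⟩, -39 ^ 2 / 29 ^ 2, 39 * 35195 / 29 ^ 3, by norm_num,
      by norm_num⟩
  · exact ⟨⟨by norm_num, by norm_num⟩, -228 ^ 2 / 89 ^ 2, 228 * 31679 / 89 ^ 3, by norm_num,
      by norm_num⟩
  · exact ⟨⟨by norm_num, by norm_num⟩, -132 ^ 2 / 53 ^ 2, 132 * 147359 / 53 ^ 3, by norm_num,
      by norm_num⟩
  · exact ⟨⟨by norm_num, by norm_num⟩, -3 ^ 2 / 1 ^ 2, 3 * 95 / 1 ^ 3, by norm_num, by norm_num⟩
  · exact ⟨⟨by norm_num, by norm_num⟩, -4 ^ 2 / 1 ^ 2, 4 * 55 / 1 ^ 3, by norm_num, by norm_num⟩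
  · exact ⟨⟨by norm_num, by norm_num⟩, -917 ^ 2 / 2581 ^ 2, 917 * 1840621505 / 2581 ^ 3,
      by norm_num, by norm_num⟩
  · exact ⟨⟨by norm_num, by norm_num⟩, -561 ^ 2 / 97 ^ 2, 561 * 960395 / 97 ^ 3, by norm_num,
      by norm_num⟩
  · exact ⟨⟨by norm_num, by norm_num⟩, -3 ^ 2 / 1 ^ 2, 3 * 505 / 1 ^ 3, by norm_num, by norm_num⟩
  · exact ⟨⟨by norm_num, by norm_num⟩, -1848 ^ 2 / 313 ^ 2, 1848 * 32561041 / 313 ^ 3,
      by norm_num, by norm_num⟩
  · exact ⟨⟨by norm_num, by norm_num⟩, -551 ^ 2 / 101 ^ 2, 551 * 4257605 / 101 ^ 3, by norm_num,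
      by norm_num⟩

end Pool.Agent.Z695.MT
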