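import Pool.Agent.Z695.MT.F

/-!
# The rational points of the twists of `X_0(20)`: the rank
-/

set_option autoImplicit false
set_option linter.all false

open WeierstrassCurve WeierstrassCurve.Affine

namespace Pool.Agent.Z695.MT

open Pool.Agent.Y695 (ED)

variable {b : ℤ}

/-- the doubling formula -/
theorem dbl_x (hb : Odd b) (x y : ℚ) (h : (EQ b).toAffine.Nonsingular x y) (hy : y ≠ 0) :
    ∃ (x' y' : ℚ) (h' : (EQ b).toAffine.Nonsingular x' y'),
      (Point.some x y h : (EQ b).toAffine.Point) + Point.some x y h = Point.some x' y' h' ∧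
      x' = (x ^ 2 + b ^ 2) ^ 2 / (4 * y ^ 2) ∧
      x' = ((3 * x ^ 2 - 22 * b * x - b ^ 2) / (2 * y)) ^ 2 + 11 * b - 2 * x ∧
      y' = -((3 * x ^ 2 - 22 * b * x - b ^ 2) / (2 * y) * (x' - x) + y) := by
  have he := (eqn x y).1 h.1
  have hY : y ≠ (EQ b).toAffine.negY x y := by
    rw [negY, ha1, ha3]
    intro h
    apply hy
    linarith
  have hs : (EQ b).toAffine.slope x x y y = (3 * x ^ 2 - 22 * b * x - b ^ 2) / (2 * y) := by
    rw [slope_of_Y_ne rfl hY, negY, ha1, ha2, ha3, ha4]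
    have e : y - (-y - 0 * x - 0) = 2 * y := by ring
    rw [e]
    congr 1
    ring
  have hx' : (EQ b).toAffine.addX x x ((EQ b).toAffine.slope x x y y) =
      ((3 * x ^ 2 - 22 * b * x - b ^ 2) / (2 * y)) ^ 2 + 11 * b - 2 * x := by
    rw [hs, addX, ha1, ha2]
    ring
  refine ⟨_, _, _, Point.add_self_of_Y_ne hY, ?_, hx', ?_⟩
  · rw [hx', eq_div_iff (by positivity)]
    have hk : ((3 * x ^ 2 - 22 * b * x - b ^ 2) / (2 * y)) ^ 2 * (4 * y ^ 2) =
        (3 * x ^ 2 - 22 * b * x - b ^ 2) ^ 2 := by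
      rw [div_pow, div_mul_eq_mul_div, div_eq_iff (by positivity)]
      ring
    linear_combination hk + (44 * b - 8 * x) * he
  · rw [addY, negAddY, negY, ha1, ha3, hs]
    ring

/-- `N(x^2 + a x + b) = N(x)^2` for integers `a, b` if `N(x) > 1` -/
theorem nn_quad (x : ℚ) (a c : ℤ) (hx : 1 < nn x) : nn (x ^ 2 + a * x + c) = nn x ^ 2 := by
  have h1 : nn (a * x + c : ℚ) ≤ nn x := by
    refine nn_add_le ?_ ?_
    · rw [nn_mul]
      have : nn (a : ℚ) ≤ 1 := padicNorm.of_int (p := 2) a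
      nlinarith
    · exact (padicNorm.of_int (p := 2) c).trans hx.le
  have h2 : nn (x ^ 2) = nn x ^ 2 := nn_pow x 2
  rw [show x ^ 2 + a * x + c = (a * x + c) + x ^ 2 by ring, nn_add_of_lt, h2]
  rw [h2]
  nlinarith

/-- duplication multiplies the norm of `x` by four -/
theorem dbl (hb : Odd b) (x y : ℚ) (h : (EQ b).toAffine.Nonsingular x y) (hx : 1 < nn x) :
    ∃ (x' y' : ℚ) (h' : (EQ b).toAffine.Nonsingular x' y'),
      (Point.some x y h : (EQ b).toAffine.Point) + Point.some x y h = Point.some x' y' h' ∧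
      nn x' = 4 * nn x := by
  have he := (eqn x y).1 h.1
  have h1 := nn_quad x (-11 * b) (-b ^ 2) hx
  have h2 := nn_quad x 0 (b ^ 2) hx
  have hN : nn y ^ 2 = nn x ^ 3 := by
    rw [← nn_pow, he, show x ^ 3 - 11 * b * x ^ 2 - b ^ 2 * x =
      x * (x ^ 2 + ((-11 * b : ℤ) : ℚ) * x + ((-b ^ 2 : ℤ) : ℚ)) by push_cast; ring, nn_mul, h1]
    ring
  have hy0 : y ≠ 0 := by
    intro h0
    have h00 : nn 0 = 0 := padicNorm.zero
    rw [h0, h00] at hN
    have : (0 : ℚ) < nn x ^ 3 := by positivity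
    rw [← hN] at this
    norm_num at this
  obtain ⟨x', y', h', e1, e2, -, -⟩ := dbl_x hb x y h hy0
  refine ⟨x', y', h', e1, ?_⟩
  have e3 : (x ^ 2 + b ^ 2 : ℚ) = x ^ 2 + ((0 : ℤ) : ℚ) * x + ((b ^ 2 : ℤ) : ℚ) := by
    push_cast; ring
  rw [e2, e3, nn_div, nn_mul, nn_pow, nn_pow, h2, hN, nn_four]
  have : nn x ≠ 0 := by
    have : 0 < nn x := by linarith
    exact this.ne'
  field_simp

theorem itr (hb : Odd b) (P : (EQ b).toAffine.Point) (x y : ℚ)
    (h : (EQ b).toAffine.Nonsingular x y)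
    (hP : P = Point.some x y h) (hx : 1 < nn x) (k : ℕ) :
    ∃ (x' y' : ℚ) (h' : (EQ b).toAffine.Nonsingular x' y'),
      (2 ^ k : ℕ) • P = Point.some x' y' h' ∧ nn x' = 4 ^ k * nn x := by
  induction k with
  | zero => exact ⟨x, y, h, by rw [pow_zero, one_nsmul, hP], by rw [pow_zero, one_mul]⟩
  | succ k ih =>
    obtain ⟨x', y', h', e1, e2⟩ := ih
    have h1 : 1 < nn x' := by
      rw [e2]
      have : (1 : ℚ) ≤ 4 ^ k := one_le_pow₀ (by norm_num)
      nlinarith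
    obtain ⟨x'', y'', h'', e3, e4⟩ := dbl hb x' y' h' h1
    refine ⟨x'', y'', h'', ?_, ?_⟩
    · rw [pow_succ, mul_nsmul, e1, two_nsmul, e3]
    · rw [e4, e2, pow_succ]; ring

theorem inf_big (hb : Odd b) (P : (EQ b).toAffine.Point) (x y : ℚ)
    (h : (EQ b).toAffine.Nonsingular x y)
    (hP : P = Point.some x y h) (hx : 1 < nn x) : ¬ IsOfFinAddOrder P := by
  intro hf
  have hfin : (Set.range fun n : ℕ => n • P).Finite := by
    have h1 := hf.finite_multiples
    rwa [AddSubmonoid.coe_multiples] at h1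
  have hinj : Function.Injective (fun k : ℕ => (2 ^ k : ℕ) • P) := by
    intro a c hab
    obtain ⟨x1, y1, h1, e1, n1⟩ := itr hb P x y h hP hx a
    obtain ⟨x2, y2, h2, e2, n2⟩ := itr hb P x y h hP hx c
    have hab' : (2 ^ a : ℕ) • P = (2 ^ c : ℕ) • P := hab
    rw [e1, e2] at hab'
    have hxx : x1 = x2 := by
      have := Point.some.inj hab'
      exact this.1
    rw [hxx, n2] at n1
    have h0 : nn x ≠ 0 := by
      have : 0 < nn x := by linarith
      exact this.ne'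
    have := mul_right_cancel₀ h0 n1
    exact (Nat.pow_right_injective (le_refl 2 |>.trans (by norm_num : 2 ≤ 4))
      (by exact_mod_cast this)).symm
  have : (Set.range fun k : ℕ => (2 ^ k : ℕ) • P).Finite :=
    hfin.subset (by rintro _ ⟨k, rfl⟩; exact ⟨2 ^ k, rfl⟩)
  exact Set.infinite_range_of_injective hinj this

/-- small `x` -/
theorem inf_small (hb : Odd b) (x y : ℚ) (h : (EQ b).toAffine.Nonsingular x y) (hx0 : x ≠ 0)
    (hx : nn x < 1) : ¬ IsOfFinAddOrder (Point.some x y h : (EQ b).toAffine.Point) := by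
  have he := (eqn x y).1 h.1
  have hpos : 0 < nn x := by
    refine lt_of_le_of_ne (nn_nonneg x) (fun h => hx0 ?_)
    exact padicNorm.zero_of_padicNorm_eq_zero h.symm
  have hb1 : nn (b : ℚ) = 1 := nn_odd hb
  have hb2 : nn ((b : ℚ) ^ 2) = 1 := by rw [nn_pow, hb1, one_pow]
  have h1 : nn (x ^ 2 - 11 * b * x - b ^ 2 : ℚ) = 1 := by
    rw [show (x ^ 2 - 11 * b * x - b ^ 2 : ℚ) = x * (x - ((11 * b : ℤ) : ℚ)) + -((b : ℚ) ^ 2) by
      push_cast; ring, nn_add_of_lt, nn_neg, hb2]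
    rw [nn_neg, hb2, nn_mul]
    have h2 : nn (x - ((11 * b : ℤ) : ℚ)) ≤ 1 := by
      rw [sub_eq_add_neg]
      refine nn_add_le hx.le ?_
      rw [nn_neg]
      exact padicNorm.of_int (p := 2) _
    nlinarith [nn_nonneg (x - ((11 * b : ℤ) : ℚ))]
  have hN : nn y ^ 2 = nn x := by
    rw [← nn_pow, he, show x ^ 3 - 11 * b * x ^ 2 - b ^ 2 * x =
      x * (x ^ 2 - 11 * b * x - b ^ 2 : ℚ) by ring, nn_mul, h1, mul_one]
  have hy0 : y ≠ 0 := by
    intro h0
    have h00 : nn 0 = 0 := padicNorm.zero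
    rw [h0, h00] at hN
    rw [← hN] at hpos
    norm_num at hpos
  obtain ⟨x', y', h', e1, e2, -, -⟩ := dbl_x hb x y h hy0
  have h3 : nn (x ^ 2 + b ^ 2 : ℚ) = 1 := by
    rw [nn_add_of_lt, hb2]
    rw [hb2, nn_pow]
    nlinarith
  have h4 : nn x' = 4 / nn x := by
    rw [e2, nn_div, nn_mul, nn_pow, nn_pow, h3, hN, nn_four]
    field_simp
  intro hf
  refine inf_big hb _ x' y' h' rfl ?_ (e1 ▸ hf.add hf)
  rw [h4, lt_div_iff₀ hpos]
  linarith

end Pool.Agent.Z695.MT
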